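import Mathlib
import Pool.Agent.Lib.P9700a.Weights

/-!
# Linear groups of small degree: abelian normal subgroups are central

`M` a finite group, faithful on `W` over an algebraically closed field `k`, all prime divisors of `|M|` exceed `dim W`. `E` an abelian normal subgroup with `|E| ≠ 0` in `k`. Then `E` is central.

Proof. Let `Ω` be the set of `χ : E → k` with `⨅ e, (ρ e).maxGenEigenspace (χ e) ≠ ⊥`. These subspaces are independent with supremum `⊤` (see the proof in `P9700a/Weights.lean`, its auxiliary lemmas `cj`, `mem_W`, `map_W`, `map_W_ne`, `smul_val` may be used or copied), so `Ω` is finite with at most `dim W` elements. `M` acts on `Ω` by `χ ↦ (e ↦ χ (g⁻¹ e g))`.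
The size of an orbit divides `|M|` and is `≤ |Ω| ≤ dim W`; a prime divisor of it would be `≤ dim W` and divide `|M|`; so all orbits have size one: `χ (g⁻¹ e g) = χ e` for all `χ ∈ Ω`, `g ∈ M`, `e ∈ E`. As in `Weights.lean`: `ρ (g e g⁻¹)` and `ρ e` commute and have the same generalised eigenvalue on each weight space, so
`ρ (g e g⁻¹ e⁻¹) - 1` is nilpotent. `z = g e g⁻¹ e⁻¹ ∈ E`, `z ^ N = 1` with `N = |E| ≠ 0` in `k`. With `x = ρ z - 1` nilpotent: `0 = (1 + x)^N - 1 = x (N + x y)` for a polynomial `y` in `x`, and `N + x y` is a unit (`N ≠ 0` in `k`, nilpotent perturbation), so `x = 0`, `z = 1`.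
-/

set_option autoImplicit false

namespace P9700a

namespace CentAbAux

theorem eq_one_of_nil {R : Type*} [Ring R] (T : R) (N : ℕ) (hN : IsUnit (N : R)) (h : T ^ N = 1)
    (hn : IsNilpotent (T - 1)) : T = 1 := by
  have h1 : (T - 1) * ∑ i ∈ Finset.range N, T ^ i = 0 := by
    rw [mul_geom_sum, h, sub_self]
  have h2 : ∑ i ∈ Finset.range N, T ^ i = (N : R) +
      (T - 1) * ∑ i ∈ Finset.range N, ∑ j ∈ Finset.range i, T ^ j := by
    rw [Finset.mul_sum]
    have h3 : ∀ i ∈ Finset.range N, (T - 1) * ∑ j ∈ Finset.range i, T ^ j = T ^ i - 1 := by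
      intro i _
      rw [mul_geom_sum]
    rw [Finset.sum_congr rfl h3, Finset.sum_sub_distrib]
    simp
  have hcT : ∀ S : R, Commute T S → Commute (T - 1) S := fun S hS =>
    hS.sub_left (Commute.one_left S)
  have h4 : Commute (T - 1) (∑ i ∈ Finset.range N, ∑ j ∈ Finset.range i, T ^ j) := by
    apply hcT
    refine Commute.sum_right _ _ _ fun i _ => Commute.sum_right _ _ _ fun j _ => ?_
    exact (Commute.refl T).pow_right j
  have h5 : IsNilpotent ((T - 1) * ∑ i ∈ Finset.range N, ∑ j ∈ Finset.range i, T ^ j) :=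
    Commute.isNilpotent_mul_right h4 hn
  have h6 : IsUnit (∑ i ∈ Finset.range N, T ^ i) := by
    rw [h2]
    exact h5.isUnit_add_left_of_commute hN (Nat.cast_commute N _).symm
  have h7 := (h6.mul_left_eq_zero).1 h1
  exact sub_eq_zero.1 h7

end CentAbAux

open WeightsAux CentAbAux

theorem central_of_abelian_normal {k W M : Type*} [Field k] [IsAlgClosed k] [AddCommGroup W]
    [Module k W] [FiniteDimensional k W] [Group M] [Finite M] (ρ : M →* Module.End k W)
    (hρ : Function.Injective ρ)
    (hcop : ∀ l : ℕ, l.Prime → l ∣ Nat.card M → Module.finrank k W < l)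
    (E : Subgroup M) [E.Normal] (hE : ∀ x ∈ E, ∀ y ∈ E, x * y = y * x)
    (hk : (Nat.card E : k) ≠ 0) : ∀ e ∈ E, ∀ g : M, g * e = e * g := by
  classical
  have hcomm : ∀ x y : E, Commute (ρ x) (ρ y) := fun x y => by
    show ρ x * ρ y = ρ y * ρ x
    rw [← map_mul, ← map_mul, hE x x.2 y y.2]
  have htop : ⨆ χ, WeightsAux.W ρ E χ = ⊤ :=
    Module.End.iSup_iInf_maxGenEigenspace_eq_top_of_iSup_maxGenEigenspace_eq_top_of_commute
      (fun n : E => ρ n) (fun i j _ => hcomm i j)
      (fun i => Module.End.iSup_maxGenEigenspace_eq_top _)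
  have hind : iSupIndep (WeightsAux.W ρ E) :=
    Module.End.independent_iInf_maxGenEigenspace_of_forall_mapsTo (fun n : E => ρ n)
      (fun i j φ => Module.End.mapsTo_maxGenEigenspace_of_comm (hcomm j i) φ)
  have hfin : {χ | WeightsAux.W ρ E χ ≠ ⊥}.Finite := WellFoundedGT.finite_ne_bot_of_iSupIndep hind
  have hFin : Finite {χ : E → k // WeightsAux.W ρ E χ ≠ ⊥} := hfin.to_subtype
  have : Fintype {χ : E → k // WeightsAux.W ρ E χ ≠ ⊥} := Fintype.ofFinite _
  have hcard : Nat.card {χ : E → k // WeightsAux.W ρ E χ ≠ ⊥} ≤ Module.finrank k W := by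
    rw [Nat.card_eq_fintype_card]
    exact hind.subtype_ne_bot_le_finrank
  -- all weights are fixed
  have hfix : ∀ (g : M) (x : {χ : E → k // WeightsAux.W ρ E χ ≠ ⊥}), g • x = x := by
    intro g x
    have h1 : Nat.card (MulAction.orbit M x) * Nat.card (MulAction.stabilizer M x) =
        Nat.card M := by
      rw [← Nat.card_prod]
      exact Nat.card_congr (MulAction.orbitProdStabilizerEquivGroup M x)
    have h2 : Nat.card (MulAction.orbit M x) ≤ Module.finrank k W :=
      (Nat.card_le_card_of_injective _ Subtype.val_injective).trans hcard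
    have h3 : Nat.card (MulAction.orbit M x) = 1 := by
      by_contra h
      have h4 := Nat.minFac_prime h
      have h5 := hcop _ h4 ((Nat.minFac_dvd _).trans ⟨_, h1.symm⟩)
      have h6 : 0 < Nat.card (MulAction.orbit M x) := by
        have : Nonempty (MulAction.orbit M x) := ⟨⟨x, MulAction.mem_orbit_self x⟩⟩
        exact Nat.card_pos
      have h7 := Nat.minFac_le h6
      omega
    have : Subsingleton (MulAction.orbit M x) := (Nat.card_eq_one_iff_unique.1 h3).1
    have h8 : (⟨g • x, MulAction.mem_orbit x g⟩ : MulAction.orbit M x) =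
        ⟨x, MulAction.mem_orbit_self x⟩ := Subsingleton.elim _ _
    exact congrArg Subtype.val h8
  intro n hn g
  obtain ⟨n', hn'⟩ : ∃ n' : E, (n' : M) = n := ⟨⟨n, hn⟩, rfl⟩
  obtain ⟨m, hm⟩ : ∃ m : E, m = cj E g n' := ⟨_, rfl⟩
  have hmG : (m : M) = g⁻¹ * n * g := by rw [hm, ← hn']; rfl
  have hval : ∀ χ, WeightsAux.W ρ E χ ≠ ⊥ → χ m = χ n' := by
    intro χ hχ
    have h2 := smul_val ρ E g ⟨χ, hχ⟩ n'
    rw [hfix g ⟨χ, hχ⟩] at h2
    rw [hm]
    exact h2.symm
  -- the difference is nilpotent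
  have hall : (ρ m - ρ n').maxGenEigenspace (0 : k) = ⊤ := by
    rw [← top_le_iff, ← htop]
    refine iSup_le fun χ => ?_
    by_cases hχ : WeightsAux.W ρ E χ = ⊥
    · rw [hχ]
      exact bot_le
    · intro w hw
      rw [mem_W] at hw
      have h1 := hw m
      have h2 := hw n'
      rw [hval χ hχ] at h1
      have h3 : w ∈ (-(ρ n')).maxGenEigenspace (-(χ n')) := by
        rw [Module.End.mem_maxGenEigenspace] at h2 ⊢
        obtain ⟨j, hj⟩ := h2
        refine ⟨j, ?_⟩
        have h4 : -(ρ n') - (-(χ n')) • (1 : Module.End k W) =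
            -(ρ n' - χ n' • (1 : Module.End k W)) := by
          rw [neg_smul]
          abel
        rw [h4]
        rcases Nat.even_or_odd j with hj2 | hj2
        · rw [hj2.neg_pow]
          exact hj
        · rw [hj2.neg_pow, LinearMap.neg_apply, hj, neg_zero]
      have h5 := Module.End.genEigenspace_inf_le_add (ρ m) (-(ρ n')) (χ n') (-(χ n')) ⊤ ⊤
        ((hcomm m n').neg_right)
      have h6 := h5 ⟨h1, h3⟩
      rw [add_neg_cancel, ← sub_eq_add_neg, top_add] at h6
      exact h6
  have hnil : IsNilpotent (ρ m - ρ n') := by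
    refine ⟨Module.finrank k W, ?_⟩
    rw [Module.End.maxGenEigenspace_eq_genEigenspace_finrank] at hall
    ext w
    have h1 : w ∈ (ρ m - ρ n').genEigenspace (0 : k) (Module.finrank k W) := by
      rw [hall]
      exact Submodule.mem_top
    rw [Module.End.mem_genEigenspace_nat, zero_smul, sub_zero, LinearMap.mem_ker] at h1
    rw [h1]
    rfl
  have hnil2 : IsNilpotent (ρ ((m : M) * (n' : M)⁻¹) - 1) := by
    have h1 : ρ ((m : M) * (n' : M)⁻¹) - 1 = (ρ m - ρ n') * ρ ((n' : M)⁻¹) := by
      rw [sub_mul, ← map_mul, ← map_mul, mul_inv_cancel, map_one]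
    rw [h1]
    refine Commute.isNilpotent_mul_right ?_ hnil
    have h2 := hcomm m (n'⁻¹)
    have h3 := hcomm n' (n'⁻¹)
    rw [Subgroup.coe_inv] at h2 h3
    exact h2.sub_left h3
  have hpow : ρ ((m : M) * (n' : M)⁻¹) ^ Nat.card E = 1 := by
    rw [← map_pow]
    have h1 : ((m * n'⁻¹ : E) : M) ^ Nat.card E = 1 := by
      rw [← Subgroup.coe_pow, pow_card_eq_one', Subgroup.coe_one]
    have h2 : ((m * n'⁻¹ : E) : M) = (m : M) * (n' : M)⁻¹ := rfl
    rw [← h2, h1, map_one]
  have hun : IsUnit ((Nat.card E : ℕ) : Module.End k W) := by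
    have h1 : IsUnit ((Nat.card E : ℕ) : k) := isUnit_iff_ne_zero.2 hk
    have h2 := h1.map (algebraMap k (Module.End k W))
    rw [map_natCast] at h2
    exact h2
  have h1 := eq_one_of_nil _ _ hun hpow hnil2
  have h1' : (m : M) * (n' : M)⁻¹ = 1 := hρ (by rw [h1, map_one])
  have h2 : (m : M) = n := by
    rw [mul_inv_eq_one] at h1'
    rw [h1', hn']
  rw [hmG] at h2
  calc g * n = g * (g⁻¹ * n * g) := by rw [h2]
    _ = n * g := by group

end P9700a
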