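import Mathlib
import Pool.Agent.Lib.P9700c.CentAb

/-!
# Finite linear groups whose order has only prime divisors larger than the degree

`H` finite, faithful on `W` over an algebraically closed field `k`, all prime divisors of `|H|` exceed `dim W`. Then every element of the commutator subgroup of `H` acts unipotently.

Proof. Let `l ≠ char k` be a prime divisor of `|H|` and `L` a Sylow `l`-subgroup.
(a) `L` is abelian: otherwise `L ⧸ center L` is a nontrivial `l`-group, so it has a nontrivial central element, the class of `x ∉ center L`; the subgroup `E` of `L` generated by `center L` and `x` is abelian and normal in `L` (`y x y⁻¹ ∈ x (center L)`), its order is a power of `l`, nonzero in `k`; by `central_of_abelian_normal` (for the group `L`)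
`x` is central in `L`, contradiction.
(b) `N_H(L) ≤ C_H(L)`: `central_of_abelian_normal` for the group `M = N_H(L)` and its normal abelian subgroup `L`.
(c) Burnside's transfer theorem (`Mathlib/GroupTheory/Transfer.lean`: `MonoidHom.transferSylow`, `MonoidHom.not_dvd_card_ker_transferSylow`): the kernel `K_l` of the transfer `H →* L` has order prime to `l`; as `L` is abelian `commutator H ≤ K_l` (`Abelianization.commutator_subset_ker` needs a commutative target; or directly).
So for `z ∈ commutator H` the order of `z` is prime to every prime `l ≠ char k`: it is `1` if `char k = 0`, and a power `p^m` if `char k = p` (`ringExpChar`/`CharP.exists`). Then `ρ z = 1` or `(ρ z - 1)^(p^m) = ρ (z^(p^m)) - 1 = 0` (`sub_pow_char_pow_of_commute`, `Module.End k W` has characteristic `p`, or expand by the binomial theorem).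
-/

set_option autoImplicit false

namespace P9700a

namespace BurnsLinAux

theorem pgroup_comm {k W P : Type*} [Field k] [IsAlgClosed k] [AddCommGroup W]
    [Module k W] [FiniteDimensional k W] [Group P] [Finite P] (ρ : P →* Module.End k W)
    (hρ : Function.Injective ρ)
    (hcop : ∀ l : ℕ, l.Prime → l ∣ Nat.card P → Module.finrank k W < l)
    (l : ℕ) [hl : Fact l.Prime] (hP : IsPGroup l P) (hlk : (l : k) ≠ 0) :
    ∀ x y : P, x * y = y * x := by
  by_contra hne
  have hct : Subgroup.center P ≠ ⊤ := by
    intro h
    apply hne
    intro x y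
    have hy : y ∈ Subgroup.center P := by rw [h]; exact Subgroup.mem_top y
    exact (Subgroup.mem_center_iff.1 hy x)
  have hQ : IsPGroup l (P ⧸ Subgroup.center P) := hP.to_quotient _
  have hnt : Nontrivial (P ⧸ Subgroup.center P) := by
    rw [QuotientGroup.nontrivial_iff]
    exact hct
  have hcn : Nontrivial (Subgroup.center (P ⧸ Subgroup.center P)) := hQ.center_nontrivial
  obtain ⟨⟨q, hq⟩, hq1⟩ := exists_ne (1 : Subgroup.center (P ⧸ Subgroup.center P))
  obtain ⟨x, rfl⟩ := QuotientGroup.mk_surjective q
  have hxc : x ∉ Subgroup.center P := by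
    intro hx
    apply hq1
    apply Subtype.ext
    exact (QuotientGroup.eq_one_iff x).2 hx
  have hxy : ∀ y : P, y * x * y⁻¹ * x⁻¹ ∈ Subgroup.center P := by
    intro y
    have h1 := (Subgroup.mem_center_iff.1 hq) (y : P ⧸ Subgroup.center P)
    rw [← QuotientGroup.eq_one_iff]
    have h2 : ((y * x * y⁻¹ * x⁻¹ : P) : P ⧸ Subgroup.center P) =
        (y : P ⧸ Subgroup.center P) * x * (y : P ⧸ Subgroup.center P)⁻¹ *
          (x : P ⧸ Subgroup.center P)⁻¹ := rfl
    rw [h2, h1]
    group
  set E : Subgroup P := Subgroup.center P ⊔ Subgroup.zpowers x with hE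
  have hxE : x ∈ E := (le_sup_right : _ ≤ E) (Subgroup.mem_zpowers x)
  have hcE : Subgroup.center P ≤ E := le_sup_left
  have hE1 : E ≤ Subgroup.centralizer {x} := by
    refine sup_le ?_ ?_
    · exact Subgroup.center_le_centralizer _
    · rw [Subgroup.zpowers_le, Subgroup.mem_centralizer_singleton_iff]
  have hE2 : E ≤ Subgroup.centralizer (E : Set P) := by
    refine sup_le (Subgroup.center_le_centralizer _) ?_
    rw [Subgroup.zpowers_le, Subgroup.mem_centralizer_iff]
    intro e he
    have := Subgroup.mem_centralizer_singleton_iff.1 (hE1 he)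
    exact this
  have hEn : E.Normal := by
    constructor
    intro e he g
    have hle : E ≤ E.comap (MulAut.conj g).toMonoidHom := by
      refine sup_le ?_ ?_
      · intro z hz
        rw [Subgroup.mem_comap]
        have : (MulAut.conj g).toMonoidHom z = z := by
          show g * z * g⁻¹ = z
          rw [Subgroup.mem_center_iff.1 hz g]
          group
        rw [this]
        exact hcE hz
      · rw [Subgroup.zpowers_le, Subgroup.mem_comap]
        have : (MulAut.conj g).toMonoidHom x = (g * x * g⁻¹ * x⁻¹) * x := by
          show g * x * g⁻¹ = _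
          group
        rw [this]
        exact E.mul_mem (hcE (hxy g)) hxE
    exact hle he
  have hcard : (Nat.card E : k) ≠ 0 := by
    obtain ⟨m, hm⟩ := (hP.to_subgroup E).exists_card_eq
    rw [hm]
    push_cast
    exact pow_ne_zero _ hlk
  have h1 := central_of_abelian_normal ρ hρ hcop E
    (fun a ha b hb => (Subgroup.mem_centralizer_iff.1 (hE2 hb) a ha)) hcard x hxE
  exact hxc (Subgroup.mem_center_iff.2 h1)

theorem not_dvd {k W H : Type*} [Field k] [IsAlgClosed k] [AddCommGroup W]
    [Module k W] [FiniteDimensional k W] [Group H] [Finite H] (ρ : H →* Module.End k W)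
    (hρ : Function.Injective ρ)
    (hcop : ∀ l : ℕ, l.Prime → l ∣ Nat.card H → Module.finrank k W < l)
    (l : ℕ) (hl : l.Prime) (hlk : (l : k) ≠ 0) (z : H) (hz : z ∈ commutator H) :
    ¬ l ∣ orderOf z := by
  have : Fact l.Prime := ⟨hl⟩
  obtain ⟨P⟩ : Nonempty (Sylow l H) := inferInstance
  have hcopS : ∀ (M : Subgroup H) (q : ℕ), q.Prime → q ∣ Nat.card M →
      Module.finrank k W < q := fun M q hq hqM =>
    hcop q hq (hqM.trans (Subgroup.card_subgroup_dvd_card M))
  have hinj : ∀ M : Subgroup H, Function.Injective (ρ.comp M.subtype) := fun M =>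
    hρ.comp M.subtype_injective
  have hPc : ∀ x ∈ (P : Subgroup H), ∀ y ∈ (P : Subgroup H), x * y = y * x := by
    intro x hx y hy
    have := pgroup_comm (ρ.comp (P : Subgroup H).subtype) (hinj _) (hcopS _) l P.isPGroup' hlk
      ⟨x, hx⟩ ⟨y, hy⟩
    exact congrArg Subtype.val this
  have hN : Subgroup.normalizer (P : Set H) ≤ Subgroup.centralizer (P : Set H) := by
    intro g hg
    rw [Subgroup.mem_centralizer_iff]
    intro e he
    have hle : (P : Subgroup H) ≤ Subgroup.normalizer (P : Set H) := Subgroup.le_normalizer
    have hnorm : ((P : Subgroup H).subgroupOf (Subgroup.normalizer (P : Set H))).Normal :=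
      (Subgroup.normal_subgroupOf_iff_le_normalizer hle).mpr le_rfl
    have hcardE : (Nat.card ((P : Subgroup H).subgroupOf (Subgroup.normalizer (P : Set H))) : k)
        ≠ 0 := by
      obtain ⟨m, hm⟩ := P.isPGroup'.exists_card_eq
      rw [Nat.card_congr (Subgroup.subgroupOfEquivOfLe hle).toEquiv, hm]
      push_cast
      exact pow_ne_zero _ hlk
    have h1 := central_of_abelian_normal
      (ρ.comp (Subgroup.normalizer (P : Set H)).subtype) (hinj _) (hcopS _)
      ((P : Subgroup H).subgroupOf (Subgroup.normalizer (P : Set H)))
      (fun a ha b hb => Subtype.ext (hPc a ha b hb)) hcardE ⟨e, hle he⟩ he ⟨g, hg⟩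
    exact (congrArg Subtype.val h1).symm
  have hker : commutator H ≤ (MonoidHom.transferSylow P hN).ker := by
    rw [commutator_def, Subgroup.commutator_le]
    intro a _ b _
    rw [MonoidHom.mem_ker, map_commutatorElement, commutatorElement_eq_one_iff_mul_comm]
    exact Subtype.ext (hPc _ (MonoidHom.transferSylow P hN a).2 _
      (MonoidHom.transferSylow P hN b).2)
  intro hd
  have h2 := MonoidHom.not_dvd_card_ker_transferSylow P hN
  apply h2
  refine hd.trans ?_
  have h3 := orderOf_dvd_natCard (⟨z, hker hz⟩ : (MonoidHom.transferSylow P hN).ker)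
  rwa [Subgroup.orderOf_mk] at h3

end BurnsLinAux

theorem commutator_unipotent {k W H : Type*} [Field k] [IsAlgClosed k] [AddCommGroup W]
    [Module k W] [FiniteDimensional k W] [Group H] [Finite H] (ρ : H →* Module.End k W)
    (hρ : Function.Injective ρ)
    (hcop : ∀ l : ℕ, l.Prime → l ∣ Nat.card H → Module.finrank k W < l) :
    ∀ z ∈ commutator H, IsNilpotent (ρ z - 1) := by
  intro z hz
  have hord : ∀ l : ℕ, l.Prime → (l : k) ≠ 0 → ¬ l ∣ orderOf z := fun l hl hlk =>
    BurnsLinAux.not_dvd ρ hρ hcop l hl hlk z hz
  obtain ⟨p, hp⟩ := CharP.exists k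
  rcases CharP.char_is_prime_or_zero k p with hpp | hp0
  · -- positive characteristic
    have h1 : orderOf z = p ^ (orderOf z).primeFactorsList.length := by
      apply Nat.eq_prime_pow_of_unique_prime_dvd (orderOf_pos z).ne'
      intro d hd hdz
      by_contra hne
      apply hord d hd _ hdz
      intro h0
      rw [CharP.cast_eq_zero_iff k p] at h0
      exact hne ((Nat.prime_dvd_prime_iff_eq hpp hd).1 h0).symm
    rcases subsingleton_or_nontrivial W with hW | hW
    · have : Subsingleton (Module.End k W) := inferInstance
      exact ⟨1, Subsingleton.elim _ _⟩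
    · have hf : Fact p.Prime := ⟨hpp⟩
      have hcp : CharP (Module.End k W) p :=
        charP_of_injective_algebraMap (FaithfulSMul.algebraMap_injective k (Module.End k W)) p
      refine ⟨p ^ (orderOf z).primeFactorsList.length, ?_⟩
      rw [sub_pow_char_pow_of_commute p _ (Commute.one_right _), ← h1, ← map_pow,
        pow_orderOf_eq_one, map_one, one_pow, sub_self]
  · subst hp0
    have h1 : orderOf z = 1 := by
      rw [Nat.eq_one_iff_not_exists_prime_dvd]
      intro q hq
      apply hord q hq
      intro h0
      rw [CharP.cast_eq_zero_iff k 0, zero_dvd_iff] at h0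
      exact hq.ne_zero h0
    rw [orderOf_eq_one_iff] at h1
    rw [h1, map_one, sub_self]
    exact IsNilpotent.zero

end P9700a
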