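import Mathlib

/-!
# A countable field of characteristic zero embeds into the complex numbers

Proof. Let `L = AlgebraicClosure (FractionRing (MvPolynomial ℂ k))` (as many variables as complex numbers). Its cardinality is the continuum (`k` countable: `MvPolynomial` cardinality lemmas, fraction ring, algebraic closure), so `L ≃+* ℂ` by `IsAlgClosed.ringEquiv_of_equiv_of_charZero` or the corresponding statement in
`Mathlib/FieldTheory/IsAlgClosed/Classification.lean` (uncountable algebraically closed fields of characteristic zero of the same cardinality are isomorphic). Compose with `k → L`. (Alternative: a transcendence basis of `k` over `ℚ` is countable and maps into an algebraically independent family of complex numbers; extend by algebraicity, `IsAlgClosed.lift`.)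
-/

set_option autoImplicit false

namespace P9700a

namespace EmbCAux

open Cardinal

universe u

theorem exists_embedding {k : Type u} [Field k] [CharZero k] [Countable k] :
    Nonempty (k →+* ℂ) := by
  let R := MvPolynomial ℂ k
  let F := FractionRing R
  let L := AlgebraicClosure F
  have hR : #R = Cardinal.lift.{u} #ℂ := by
    have h1 : #R = max (max (Cardinal.lift.{0} #k) (Cardinal.lift.{u} #ℂ)) ℵ₀ :=
      MvPolynomial.cardinalMk_eq_max_lift
    have h2 : #k ≤ ℵ₀ := Cardinal.mk_le_aleph0
    have h3 : (ℵ₀ : Cardinal.{u}) ≤ Cardinal.lift.{u} #ℂ := by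
      rw [Cardinal.aleph0_le_lift]
      exact Cardinal.aleph0_le_mk ℂ
    rw [h1, Cardinal.lift_uzero, max_eq_right (h2.trans h3), max_eq_left h3]
  have hF : #F = #R := by
    have := FractionRing.cardinalMk R
    exact this
  have hL1 : #L ≤ max #F ℵ₀ := Algebra.IsAlgebraic.cardinalMk_le_max F L
  have hL2 : #F ≤ #L := Cardinal.mk_le_of_injective (algebraMap F L).injective
  have h3 : (ℵ₀ : Cardinal.{u}) ≤ Cardinal.lift.{u} #ℂ := by
    rw [Cardinal.aleph0_le_lift]
    exact Cardinal.aleph0_le_mk ℂ
  have hL : #L = Cardinal.lift.{u} #ℂ := by
    rw [hF, hR] at hL1 hL2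
    rw [max_eq_left h3] at hL1
    exact le_antisymm hL1 hL2
  let f : k →+* L := (algebraMap F L).comp ((algebraMap R F).comp MvPolynomial.C)
  have : CharZero L := charZero_of_injective_ringHom f.injective
  have hlt : ℵ₀ < #L := by
    rw [hL, Cardinal.aleph0_lt_lift, Cardinal.mk_complex]
    exact Cardinal.aleph0_lt_continuum
  have he : Nonempty (L ≃ ℂ) := by
    rw [← Cardinal.lift_mk_eq', hL, Cardinal.lift_uzero]
  obtain ⟨e⟩ := IsAlgClosed.ringEquiv_of_equiv_of_charZero hlt he
  exact ⟨e.toRingHom.comp f⟩

end EmbCAux

theorem exists_embedding_complex (k : Type) [Field k] [CharZero k] [Countable k] :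
    Nonempty (k →+* ℂ) := by
  exact EmbCAux.exists_embedding

/-- the same for a countable subfield of a field in any universe. -/
theorem exists_embedding_complex_subfield {K : Type*} [Field K] [CharZero K] (k : Subfield K)
    [Countable k] : Nonempty (k →+* ℂ) := by
  exact EmbCAux.exists_embedding

end P9700a
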