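import Mathlib

/-!
# Jordan's theorem for finite groups of isometries of a finite-dimensional complex normed space

Proof. `S = {g ∈ Γ : ‖ρ g - 1‖ < 1/2}` (operator norm).
(1) For `g, h ∈ Γ`, `[g,h] = g h g⁻¹ h⁻¹`: `‖ρ[g,h] - 1‖ = ‖ρ(gh) - ρ(hg)‖` (right multiplication by the isometry `ρ(hg)` preserves the operator norm) `= ‖(ρ g - 1)(ρ h - 1) - (ρ h - 1)(ρ g - 1)‖ ≤ 2 ‖ρ g - 1‖ ‖ρ h - 1‖`.
(2) If `‖ρ h - 1‖ < 1/2` and `g` commutes with `k = [g,h]` then `k = 1`: `g h g⁻¹ = k h`, so `g^m h g^(-m) = k^m h` (induction, `g` commutes with `k`), `‖ρ(k^m) - 1‖ = ‖ρ(g^m h) - ρ(h g^m)‖ = ‖ρ(g^m)(ρ h - 1) - (ρ h - 1) ρ(g^m)‖ ≤ 2 ‖ρ h - 1‖ < 1` for all `m`. An eigenvalue `ξ` of `ρ k` satisfies `|ξ^m - 1| < 1` for all `m` and is a root of unity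
(`k` has finite order), so `ξ = 1` (if `ξ ≠ 1` is a root of unity of order `d ≥ 2` some power has `|ξ^m - 1| ≥ 1`: e.g. `∑_{m<d} ξ^m = 0` gives `∑_{m<d} (1 - Re ξ^m) = d`, so some `m` has `Re ξ^m ≤ 0`, `|ξ^m - 1| ≥ 1`). `ρ k` has finite order, so it is diagonalizable (or: only eigenvalue `1` means `ρ k - 1` nilpotent, and a unipotent element of finite order in
characteristic zero is `1`), `ρ k = 1`, `k = 1` (`ρ` injective). If `E` is trivial, `Γ` is trivial.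
(3) Elements of `S` commute: `g, h ∈ S`, `h_0 = h`, `h_{j+1} = [g, h_j]`, `‖ρ h_{j+1} - 1‖ ≤ 2 ‖ρ g - 1‖ ‖ρ h_j - 1‖`, `2 ‖ρ g - 1‖ < 1`; all `h_j ∈ S`; `‖ρ h_j - 1‖ → 0` and `Γ` is finite, so `h_j = 1` for some `j`; take `j` minimal. If `j ≥ 2`: `[g, h_{j-1}] = 1`, `g` commutes with `h_{j-1} = [g, h_{j-2}]`, so `h_{j-1} = 1` by (2), contradiction. So `j ≤ 1`, `[g,h] = 1`.
(4) `Γ1 = closure S` is abelian. Index: if `g_1, ..., g_m` lie in distinct left cosets of `Γ1` then `‖ρ g_i - ρ g_j‖ = ‖ρ(g_j⁻¹ g_i) - 1‖ ≥ 1/2`. The elements `2 ρ g_i` of the real normed space `E →L[ℂ] E` have norm `≤ 2` and mutual distances `≥ 1`: `Besicovitch.card_le_of_separated`: `m ≤ 5 ^ finrank ℝ (E →L[ℂ] E) = 5 ^ (2 (finrank ℂ E)^2)`.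
-/

set_option autoImplicit false

namespace JordIsomAux

variable {E Γ : Type*} [NormedAddCommGroup E] [NormedSpace ℂ E] [Group Γ]
  (ρ : Γ →* (E →L[ℂ] E))

theorem norm_le_one (hiso : ∀ (g : Γ) (v : E), ‖ρ g v‖ = ‖v‖) (g : Γ) : ‖ρ g‖ ≤ 1 := by
  refine ContinuousLinearMap.opNorm_le_bound _ zero_le_one fun v => ?_
  rw [hiso, one_mul]

theorem comm_identity (g h : Γ) :
    ρ (g * h * g⁻¹ * h⁻¹) - 1 = (ρ g * (ρ h - 1) - (ρ h - 1) * ρ g) * ρ (g⁻¹ * h⁻¹) := by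
  have h1 : ρ (g * h * g⁻¹ * h⁻¹) = ρ g * ρ h * ρ (g⁻¹ * h⁻¹) := by
    rw [← map_mul, ← map_mul]; congr 1; group
  have h2 : (1 : E →L[ℂ] E) = ρ h * ρ g * ρ (g⁻¹ * h⁻¹) := by
    rw [← map_mul, ← map_mul, ← map_one ρ]; congr 1; group
  rw [h1]
  nth_rewrite 1 [h2]
  noncomm_ring

theorem comm_identity' (g h : Γ) :
    ρ (g * h * g⁻¹ * h⁻¹) - 1 =
      ((ρ g - 1) * (ρ h - 1) - (ρ h - 1) * (ρ g - 1)) * ρ (g⁻¹ * h⁻¹) := by
  rw [comm_identity]
  congr 1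
  noncomm_ring

theorem norm_comm_le (hiso : ∀ (g : Γ) (v : E), ‖ρ g v‖ = ‖v‖) (g h : Γ) :
    ‖ρ (g * h * g⁻¹ * h⁻¹) - 1‖ ≤ 2 * ‖ρ g - 1‖ * ‖ρ h - 1‖ := by
  rw [comm_identity']
  have h3 := norm_le_one ρ hiso (g⁻¹ * h⁻¹)
  calc _ ≤ ‖(ρ g - 1) * (ρ h - 1) - (ρ h - 1) * (ρ g - 1)‖ * ‖ρ (g⁻¹ * h⁻¹)‖ := norm_mul_le _ _
    _ ≤ (‖(ρ g - 1) * (ρ h - 1)‖ + ‖(ρ h - 1) * (ρ g - 1)‖) * 1 := by
        gcongr
        exact norm_sub_le _ _
    _ ≤ (‖ρ g - 1‖ * ‖ρ h - 1‖ + ‖ρ h - 1‖ * ‖ρ g - 1‖) * 1 := by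
        gcongr
        · exact norm_mul_le _ _
        · exact norm_mul_le _ _
    _ = _ := by ring

theorem norm_comm_le' (hiso : ∀ (g : Γ) (v : E), ‖ρ g v‖ = ‖v‖) (g h : Γ) :
    ‖ρ (g * h * g⁻¹ * h⁻¹) - 1‖ ≤ 2 * ‖ρ h - 1‖ := by
  rw [comm_identity]
  have h3 := norm_le_one ρ hiso (g⁻¹ * h⁻¹)
  have h4 := norm_le_one ρ hiso g
  calc _ ≤ ‖ρ g * (ρ h - 1) - (ρ h - 1) * ρ g‖ * ‖ρ (g⁻¹ * h⁻¹)‖ := norm_mul_le _ _
    _ ≤ (‖ρ g * (ρ h - 1)‖ + ‖(ρ h - 1) * ρ g‖) * 1 := by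
        gcongr
        exact norm_sub_le _ _
    _ ≤ (‖ρ g‖ * ‖ρ h - 1‖ + ‖ρ h - 1‖ * ‖ρ g‖) * 1 := by
        gcongr
        · exact norm_mul_le _ _
        · exact norm_mul_le _ _
    _ ≤ (1 * ‖ρ h - 1‖ + ‖ρ h - 1‖ * 1) * 1 := by gcongr
    _ = _ := by ring

/-- an element of finite order all of whose powers are close to `1` is `1` -/
theorem eq_one_of_close [Finite Γ] (hρ : Function.Injective ρ) (k : Γ) (c : ℝ) (hc : c < 1)
    (hk : ∀ m : ℕ, ‖ρ (k ^ m) - 1‖ ≤ c) : k = 1 := by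
  have hn : 0 < orderOf k := orderOf_pos k
  set n := orderOf k with hndef
  have hn' : (0 : ℝ) < n := by exact_mod_cast hn
  have hpow : (ρ k) ^ n = 1 := by
    rw [← map_pow, hndef, pow_orderOf_eq_one, map_one]
  set P : E →L[ℂ] E := ∑ i ∈ Finset.range n, (ρ k) ^ i with hP
  have hAP : (ρ k - 1) * P = 0 := by
    rw [hP, mul_geom_sum, hpow, sub_self]
  have hPn : ‖P - (n : ℂ) • (1 : E →L[ℂ] E)‖ ≤ n * c := by
    have : P - (n : ℂ) • (1 : E →L[ℂ] E) = ∑ i ∈ Finset.range n, (ρ (k ^ i) - 1) := by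
      rw [Finset.sum_sub_distrib, hP]
      simp only [map_pow, Finset.sum_const, Finset.card_range]
      congr 1
      rw [Nat.cast_smul_eq_nsmul]
    rw [this]
    calc _ ≤ ∑ i ∈ Finset.range n, ‖ρ (k ^ i) - 1‖ := norm_sum_le _ _
      _ ≤ ∑ i ∈ Finset.range n, c := Finset.sum_le_sum fun i _ => hk i
      _ = n * c := by simp
  have hA : (ρ k - 1) * (P - (n : ℂ) • (1 : E →L[ℂ] E)) = -((n : ℂ) • (ρ k - 1)) := by
    rw [mul_sub, hAP, mul_smul_comm, mul_one, zero_sub]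
  have h1 : (n : ℝ) * ‖ρ k - 1‖ ≤ ‖ρ k - 1‖ * (n * c) := by
    have h2 : ‖-((n : ℂ) • (ρ k - 1))‖ = (n : ℝ) * ‖ρ k - 1‖ := by
      rw [norm_neg, norm_smul]; simp
    rw [← h2, ← hA]
    calc _ ≤ ‖ρ k - 1‖ * ‖P - (n : ℂ) • (1 : E →L[ℂ] E)‖ := norm_mul_le _ _
      _ ≤ _ := by gcongr
  have h3 : ‖ρ k - 1‖ ≤ 0 := by
    by_contra hcon
    push Not at hcon
    have : (n : ℝ) * ‖ρ k - 1‖ * c < (n : ℝ) * ‖ρ k - 1‖ * 1 := by
      apply mul_lt_mul_of_pos_left hc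
      positivity
    nlinarith
  have h4 : ρ k = 1 := by
    have := norm_le_zero_iff.mp h3
    exact sub_eq_zero.mp this
  apply hρ
  rw [h4, map_one]

theorem comm_eq_one [Finite Γ] (hρ : Function.Injective ρ)
    (hiso : ∀ (g : Γ) (v : E), ‖ρ g v‖ = ‖v‖) (g h : Γ) (hh : ‖ρ h - 1‖ < 1 / 2)
    (hg : g * (g * h * g⁻¹ * h⁻¹) = (g * h * g⁻¹ * h⁻¹) * g) : g * h * g⁻¹ * h⁻¹ = 1 := by
  set k := g * h * g⁻¹ * h⁻¹ with hk
  have hkh : g * h * g⁻¹ = k * h := by rw [hk]; group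
  have hgk : ∀ m : ℕ, g * k ^ m = k ^ m * g := fun m =>
    (Commute.pow_right (show Commute g k from hg) m)
  have hm : ∀ m : ℕ, g ^ m * h * (g ^ m)⁻¹ = k ^ m * h := by
    intro m
    induction m with
    | zero => simp
    | succ m ih =>
      calc g ^ (m + 1) * h * (g ^ (m + 1))⁻¹ = g * (g ^ m * h * (g ^ m)⁻¹) * g⁻¹ := by
            rw [pow_succ']; group
        _ = g * (k ^ m * h) * g⁻¹ := by rw [ih]
        _ = (g * k ^ m) * h * g⁻¹ := by group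
        _ = (k ^ m * g) * h * g⁻¹ := by rw [hgk]
        _ = k ^ m * (g * h * g⁻¹) := by group
        _ = k ^ m * (k * h) := congrArg (fun z => k ^ m * z) hkh
        _ = k ^ (m + 1) * h := by rw [pow_succ k m, mul_assoc (k ^ m) k h]
  refine eq_one_of_close ρ hρ k (2 * ‖ρ h - 1‖) (by linarith) fun m => ?_
  have h5 : k ^ m = g ^ m * h * (g ^ m)⁻¹ * h⁻¹ := by rw [hm m]; group
  rw [h5]
  exact norm_comm_le' ρ hiso (g ^ m) h

theorem comm_of_close [Finite Γ] (hρ : Function.Injective ρ)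
    (hiso : ∀ (g : Γ) (v : E), ‖ρ g v‖ = ‖v‖) (g h : Γ) (hg : ‖ρ g - 1‖ < 1 / 2)
    (hh : ‖ρ h - 1‖ < 1 / 2) : g * h = h * g := by
  let H : ℕ → Γ := fun n => Nat.rec h (fun _ x => g * x * g⁻¹ * x⁻¹) n
  have H0 : H 0 = h := rfl
  have Hs : ∀ n, H (n + 1) = g * H n * g⁻¹ * (H n)⁻¹ := fun n => rfl
  have hle : ∀ n, ‖ρ (H (n + 1)) - 1‖ ≤ 2 * ‖ρ g - 1‖ * ‖ρ (H n) - 1‖ := fun n => by
    rw [Hs]; exact norm_comm_le ρ hiso _ _
  have hsm : ∀ n, ‖ρ (H n) - 1‖ < 1 / 2 := by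
    intro n
    induction n with
    | zero => exact hh
    | succ n ih =>
      refine lt_of_le_of_lt (hle n) ?_
      have := norm_nonneg (ρ g - 1)
      have := norm_nonneg (ρ (H n) - 1)
      nlinarith
  have hex : ∃ n, H n = 1 := by
    by_contra hne
    push Not at hne
    have hpos : ∀ n, 0 < ‖ρ (H n) - 1‖ := by
      intro n
      rw [norm_pos_iff]
      intro h0
      apply hne n
      apply hρ
      rw [map_one]
      exact sub_eq_zero.mp h0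
    have hanti : StrictAnti fun n => ‖ρ (H n) - 1‖ := by
      apply strictAnti_nat_of_succ_lt
      intro n
      refine lt_of_le_of_lt (hle n) ?_
      have h6 := hpos n
      nlinarith
    have hinj : Function.Injective H := by
      intro a b hab
      apply hanti.injective
      simp only [hab]
    exact not_injective_infinite_finite H hinj
  have hdown : ∀ n, H (n + 1) = 1 → H 1 = 1 := by
    intro n
    induction n with
    | zero => exact id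
    | succ n ih =>
      intro h7
      apply ih
      have h8 : g * H (n + 1) = H (n + 1) * g := by
        have h9 := Hs (n + 1)
        rw [h7] at h9
        have h10 : g * H (n + 1) * g⁻¹ * (H (n + 1))⁻¹ * H (n + 1) * g = 1 * H (n + 1) * g := by
          rw [← h9]
        rw [inv_mul_cancel_right, inv_mul_cancel_right, one_mul] at h10
        exact h10
      rw [Hs n] at h8 ⊢
      exact comm_eq_one ρ hρ hiso g (H n) (hsm n) h8
  obtain ⟨n, hn⟩ := hex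
  have h11 : H 1 = 1 := by
    cases n with
    | zero =>
      have h13 := Hs 0
      rw [hn] at h13
      have h14 : g * (1 : Γ) * g⁻¹ * (1 : Γ)⁻¹ = 1 := by group
      exact h13.trans h14
    | succ n => exact hdown n hn
  replace h11 : g * h * g⁻¹ * h⁻¹ = 1 := h11
  have h12 : g * h * g⁻¹ * h⁻¹ * h * g = 1 * h * g := by rw [h11]
  rw [inv_mul_cancel_right, inv_mul_cancel_right, one_mul] at h12
  exact h12

end JordIsomAux

namespace P9700a

open JordIsomAux in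
theorem jordan_isom {E Γ : Type*} [NormedAddCommGroup E] [NormedSpace ℂ E]
    [FiniteDimensional ℂ E] [Group Γ] [Finite Γ] (ρ : Γ →* (E →L[ℂ] E))
    (hρ : Function.Injective ρ) (hiso : ∀ (g : Γ) (v : E), ‖ρ g v‖ = ‖v‖) :
    ∃ Γ1 : Subgroup Γ, (∀ x ∈ Γ1, ∀ y ∈ Γ1, x * y = y * x) ∧
      Γ1.index ≤ 5 ^ (2 * (Module.finrank ℂ E) ^ 2) := by
  classical
  let S : Set Γ := {g | ‖ρ g - 1‖ < 1 / 2}
  refine ⟨Subgroup.closure S, ?_, ?_⟩
  · have hS : ∀ x ∈ S, ∀ y ∈ S, x * y = y * x := fun x hx y hy =>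
      comm_of_close ρ hρ hiso x y hx hy
    have := Subgroup.isMulCommutative_closure hS
    intro x hx y hy
    have h1 := this.is_comm.comm ⟨x, hx⟩ ⟨y, hy⟩
    exact congrArg Subtype.val h1
  · have hfin : Module.finrank ℝ (E →L[ℂ] E) = 2 * (Module.finrank ℂ E) ^ 2 := by
      rw [finrank_real_of_complex]
      congr 1
      rw [← LinearEquiv.finrank_eq (LinearMap.toContinuousLinearMap (𝕜 := ℂ) (E := E) (F' := E)),
        Module.finrank_linearMap, sq]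
    rw [← hfin]
    have hsep : ∀ a b : Γ, a⁻¹ * b ∉ Subgroup.closure S → 1 / 2 ≤ ‖ρ a - ρ b‖ := by
      intro a b hab
      have h1 : ¬ ‖ρ (a⁻¹ * b) - 1‖ < 1 / 2 := fun h => hab (Subgroup.subset_closure h)
      push Not at h1
      refine h1.trans ?_
      have h2 : ρ (a⁻¹ * b) - 1 = -(ρ a⁻¹ * (ρ a - ρ b)) := by
        rw [mul_sub, ← map_mul, ← map_mul, inv_mul_cancel, map_one]
        abel
      rw [h2, norm_neg]
      calc _ ≤ ‖ρ a⁻¹‖ * ‖ρ a - ρ b‖ := norm_mul_le _ _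
        _ ≤ 1 * ‖ρ a - ρ b‖ := by
            gcongr
            exact norm_le_one ρ hiso _
        _ = _ := one_mul _
    have : Fintype (Γ ⧸ Subgroup.closure S) := Fintype.ofFinite _
    let f : (Γ ⧸ Subgroup.closure S) → (E →L[ℂ] E) := fun q => (2 : ℝ) • ρ q.out
    have hf : ∀ q q', q ≠ q' → 1 ≤ ‖f q - f q'‖ := by
      intro q q' hq
      have h3 : q.out⁻¹ * q'.out ∉ Subgroup.closure S := by
        intro h4
        apply hq
        rw [← Quotient.out_eq q, ← Quotient.out_eq q']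
        exact QuotientGroup.eq.mpr h4
      have h5 := hsep _ _ h3
      show 1 ≤ ‖(2 : ℝ) • ρ q.out - (2 : ℝ) • ρ q'.out‖
      rw [← smul_sub, norm_smul, Real.norm_eq_abs, abs_two]
      linarith
    have hinj : Function.Injective f := by
      intro q q' h
      by_contra hne
      have := hf q q' hne
      rw [h, sub_self, norm_zero] at this
      linarith
    have hcard : (Finset.univ.image f).card = (Subgroup.closure S).index := by
      rw [Finset.card_image_of_injective _ hinj, Finset.card_univ, Subgroup.index,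
        Nat.card_eq_fintype_card]
    rw [← hcard]
    apply Besicovitch.card_le_of_separated
    · intro c hc
      obtain ⟨q, -, rfl⟩ := Finset.mem_image.mp hc
      show ‖(2 : ℝ) • ρ q.out‖ ≤ 2
      rw [norm_smul, Real.norm_eq_abs, abs_two]
      have := norm_le_one ρ hiso q.out
      linarith
    · intro c hc d hd hcd
      obtain ⟨q, -, rfl⟩ := Finset.mem_image.mp hc
      obtain ⟨q', -, rfl⟩ := Finset.mem_image.mp hd
      exact hf q q' fun h => hcd (by rw [h])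

end P9700a
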