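
import Mathlib
import Pool.Agent.Lib.P9700c.JordIsom
import Pool.Agent.Lib.P9700c.EmbC

/-!
# Jordan's theorem for finite linear groups of characteristic zero

Proof. Complex case (`K = ℂ`): `i : (Fin n → ℂ) → (Γ → (Fin n → ℂ))`, `(i v) g = (ρ g) v`, injective and linear; `E = range i` (a `Submodule` of the normed space `Γ → (Fin n → ℂ)`), `finrank ℂ E = n`. `Γ` acts on `Γ → (Fin n → ℂ)` by `(h · φ) g = φ (g h)`, an isometry (sup norm, permutation of coordinates), and `i (ρ h v) = h · i v`, so `E` is invariant; the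
action on `E` is faithful. `jordan_isom` gives an abelian subgroup of index at most `5^(2 n^2)`.
General case: `Γ` is finite, so the subfield `k` of `K` generated by the entries of all `ρ g` is countable (generated by a finite set); `ρ` comes from `Γ →* GL_n(k)`; embed `k` into `ℂ` (`exists_embedding_complex_subfield`, `Matrix.GeneralLinearGroup.map`, still injective).
-/

set_option autoImplicit false

namespace JordKAux

variable {n : ℕ} {Γ : Type*} [Group Γ] (ρ : Γ →* Matrix.GeneralLinearGroup (Fin n) ℂ)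

/-- `v ↦ (g ↦ ρ g v)` -/
noncomputable def emb : (Fin n → ℂ) →ₗ[ℂ] (Γ → (Fin n → ℂ)) :=
  LinearMap.pi fun g => Matrix.mulVecLin (ρ g).val

theorem emb_apply (v : Fin n → ℂ) (g : Γ) : emb ρ v g = (ρ g).val.mulVec v := rfl

theorem emb_inj : Function.Injective (emb ρ) := by
  intro v w h
  have h1 := congrFun h 1
  simpa [emb_apply] using h1

/-- the shift -/
noncomputable def shift (n : ℕ) {Γ : Type*} [Group Γ] (h : Γ) :
    (Γ → (Fin n → ℂ)) →ₗ[ℂ] (Γ → (Fin n → ℂ)) :=
  LinearMap.funLeft ℂ (Fin n → ℂ) (fun g => g * h)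

theorem shift_apply (h : Γ) (φ : Γ → (Fin n → ℂ)) (g : Γ) : shift n h φ g = φ (g * h) := rfl

theorem shift_emb (h : Γ) (v : Fin n → ℂ) :
    shift n h (emb ρ v) = emb ρ ((ρ h).val.mulVec v) := by
  funext g
  rw [shift_apply, emb_apply, emb_apply, Matrix.mulVec_mulVec, map_mul]
  rfl

theorem shift_mem (h : Γ) : ∀ x ∈ LinearMap.range (emb ρ), shift n h x ∈ LinearMap.range (emb ρ) := by
  rintro x ⟨v, rfl⟩
  exact ⟨_, (shift_emb ρ h v).symm⟩

/-- the action on the range -/
noncomputable def act [Fintype Γ] :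
    Γ →* ((LinearMap.range (emb ρ)) →L[ℂ] (LinearMap.range (emb ρ))) where
  toFun h := LinearMap.toContinuousLinearMap ((shift n h).restrict (shift_mem ρ h))
  map_one' := by
    ext x g
    simp [shift_apply]
  map_mul' a b := by
    ext x g
    simp [shift_apply, mul_assoc]

theorem act_apply [Fintype Γ] (h : Γ) (x : LinearMap.range (emb ρ)) :
    ((act ρ h x : LinearMap.range (emb ρ)) : Γ → (Fin n → ℂ)) = shift n h x := rfl

theorem shift_norm_le [Fintype Γ] (h : Γ) (φ : Γ → (Fin n → ℂ)) : ‖shift n h φ‖ ≤ ‖φ‖ := by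
  rw [pi_norm_le_iff_of_nonneg (norm_nonneg _)]
  intro g
  rw [shift_apply]
  exact norm_le_pi_norm φ (g * h)

theorem shift_norm [Fintype Γ] (h : Γ) (φ : Γ → (Fin n → ℂ)) : ‖shift n h φ‖ = ‖φ‖ := by
  refine le_antisymm (shift_norm_le h φ) ?_
  have h1 : φ = shift n h⁻¹ (shift n h φ) := by
    funext g
    rw [shift_apply, shift_apply, inv_mul_cancel_right]
  conv_lhs => rw [h1]
  exact shift_norm_le h⁻¹ _

theorem jordan_complex [Finite Γ] (hρ : Function.Injective ρ) :
    ∃ Γ1 : Subgroup Γ, (∀ x ∈ Γ1, ∀ y ∈ Γ1, x * y = y * x) ∧ Γ1.index ≤ 5 ^ (2 * n ^ 2) := by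
  have : Fintype Γ := Fintype.ofFinite Γ
  have hfin : Module.finrank ℂ (LinearMap.range (emb ρ)) = n := by
    rw [LinearMap.finrank_range_of_inj (emb_inj ρ)]
    simp
  have hinj : Function.Injective (act ρ) := by
    intro a b hab
    apply hρ
    apply Units.ext
    apply Matrix.mulVec_injective
    funext v
    apply emb_inj ρ
    rw [← shift_emb, ← shift_emb]
    have h1 := congrArg (fun T : (LinearMap.range (emb ρ)) →L[ℂ] (LinearMap.range (emb ρ)) =>
      ((T ⟨emb ρ v, ⟨v, rfl⟩⟩ : LinearMap.range (emb ρ)) : Γ → (Fin n → ℂ))) hab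
    exact h1
  have hiso : ∀ (g : Γ) (v : LinearMap.range (emb ρ)), ‖act ρ g v‖ = ‖v‖ := by
    intro g v
    rw [Submodule.coe_norm, Submodule.coe_norm, act_apply, shift_norm]
  have := P9700a.jordan_isom (act ρ) hinj hiso
  rwa [hfin] at this

end JordKAux

namespace P9700a

open JordKAux in
theorem jordan {K Γ : Type*} [Field K] [CharZero K] {n : ℕ} [Group Γ] [Finite Γ]
    (ρ : Γ →* Matrix.GeneralLinearGroup (Fin n) K) (hρ : Function.Injective ρ) :
    ∃ Γ1 : Subgroup Γ, (∀ x ∈ Γ1, ∀ y ∈ Γ1, x * y = y * x) ∧ Γ1.index ≤ 5 ^ (2 * n ^ 2) := by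
  classical
  let s : Set K := Set.range fun t : Γ × Fin n × Fin n => (ρ t.1).val t.2.1 t.2.2
  have hs : s.Finite := Set.finite_range _
  let k : Subfield K := Subfield.closure s
  have hk : Countable k := by
    rw [← Cardinal.mk_le_aleph0_iff]
    refine (Subfield.cardinalMk_closure_le_max s).trans ?_
    refine max_le ?_ le_rfl
    exact (Cardinal.mk_le_aleph0_iff).mpr hs.countable.to_subtype
  have hmem : ∀ g i j, (ρ g).val i j ∈ k := fun g i j =>
    Subfield.subset_closure ⟨(g, i, j), rfl⟩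
  obtain ⟨φ⟩ := exists_embedding_complex_subfield k
  let σ : Γ →* Matrix (Fin n) (Fin n) k :=
    { toFun := fun g i j => ⟨(ρ g).val i j, hmem g i j⟩
      map_one' := by
        ext i j
        show (ρ 1).val i j = ((1 : Matrix (Fin n) (Fin n) k) i j : K)
        rw [map_one, Units.val_one, Matrix.one_apply, Matrix.one_apply]
        split_ifs <;> rfl
      map_mul' := by
        intro a b
        ext i j
        show (ρ (a * b)).val i j =
          ((∑ l, (⟨(ρ a).val i l, hmem a i l⟩ : k) * ⟨(ρ b).val l j, hmem b l j⟩ : k) : K)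
        rw [map_mul, Units.val_mul, Matrix.mul_apply, AddSubmonoidClass.coe_finsetSum]
        rfl }
  let τ : Γ →* Matrix.GeneralLinearGroup (Fin n) ℂ :=
    MonoidHom.toHomUnits ((φ.mapMatrix (m := Fin n)).toMonoidHom.comp σ)
  have hτ : Function.Injective τ := by
    intro a b hab
    apply hρ
    apply Units.ext
    ext i j
    have h1 : ((τ a).val i j) = ((τ b).val i j) := by rw [hab]
    have h2 : φ (σ a i j) = φ (σ b i j) := h1
    have h3 := φ.injective h2
    exact congrArg Subtype.val h3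
  exact jordan_complex τ hτ

end P9700a
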