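import Mathlib
import Pool.Agent.Lib.P9700c.JordK

/-!
# Jordan's theorem for groups that are finite modulo scalars

Proof. `n = finrank K V ≥ 1`. In the group `(Module.End K V)ˣ` (or `GL_n(K)` via a basis) let `Γ` be the set of units `g` with `LinearMap.det g = 1` and `g = c • ρ x` for some `x : C`, `c ≠ 0`. It is a subgroup. It is finite: if `x_1, ..., x_m` represent the left cosets of `D`, then `ρ x = ρ x_i * ρ d = s • ρ x_i`, so `g = c' • ρ x_i` and
`1 = det g = c'^n det (ρ x_i)`: at most `n` values of `c'` for each `i`. `jordan` (with `n`, via a basis) gives an abelian `Γ1 ≤ Γ` of index `≤ 5^(2 n^2)`. `C2 = {x : ∃ c ≠ 0, c • ρ x ∈ Γ1}` (as a unit) is a subgroup of `C`; for `x, y ∈ C2` the images commute up to (even exactly, as scalars cancel) a scalar. Index: every `x` has a `c_x` with `c_x^n det (ρ x) = 1` (`K` algebraically closed),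
`c_x • ρ x ∈ Γ`; if `c_x • ρ x` and `c_y • ρ y` are in the same left coset of `Γ1` then `x⁻¹ y ∈ C2`; so `C2.index ≤ Γ1.index` and it is nonzero (finite).
-/

set_option autoImplicit false

namespace P9700a

namespace JordPAux

variable {K V C : Type*} [Field K] [AddCommGroup V] [Module K V] [Group C]

/-- nonzero scalars as units of the endomorphism ring -/
private def sc (K V : Type*) [Field K] [AddCommGroup V] [Module K V] :
    Kˣ →* (Module.End K V)ˣ :=
  Units.map (algebraMap K (Module.End K V)).toMonoidHom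

private theorem sc_comm (c : Kˣ) (g : (Module.End K V)ˣ) : sc K V c * g = g * sc K V c := by
  apply Units.ext
  exact Algebra.commutes (c : K) (g : Module.End K V)

private theorem sc_val (c : Kˣ) (g : (Module.End K V)ˣ) :
    ((sc K V c * g : (Module.End K V)ˣ) : Module.End K V) = (c : K) • (g : Module.End K V) := by
  rw [Units.val_mul]
  change algebraMap K (Module.End K V) (c : K) * (g : Module.End K V) = _
  rw [Algebra.algebraMap_eq_smul_one, smul_mul_assoc, one_mul]

/-- scalar multiples of the image of `ρ` with determinant one -/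
private def Gam (ρ : C →* Module.End K V) : Subgroup (Module.End K V)ˣ where
  carrier := {g | LinearMap.det (g : Module.End K V) = 1 ∧
    ∃ (c : Kˣ) (x : C), g = sc K V c * ρ.toHomUnits x}
  one_mem' := by
    refine ⟨by simp, 1, 1, ?_⟩
    rw [map_one, map_one, mul_one]
  mul_mem' := by
    rintro g h ⟨hg, c, x, rfl⟩ ⟨hh, d, y, rfl⟩
    refine ⟨?_, c * d, x * y, ?_⟩
    · rw [Units.val_mul, map_mul, hg, hh, mul_one]
    · rw [map_mul, map_mul, mul_assoc, mul_assoc, ← mul_assoc (ρ.toHomUnits x),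
        ← sc_comm d (ρ.toHomUnits x), mul_assoc]
  inv_mem' := by
    rintro g ⟨hg, c, x, rfl⟩
    refine ⟨?_, c⁻¹, x⁻¹, ?_⟩
    · have h1 := congrArg (fun u : Kˣ => (u : K))
        (map_inv (Units.map (LinearMap.det : Module.End K V →* K)) (sc K V c * ρ.toHomUnits x))
      change LinearMap.det (((sc K V c * ρ.toHomUnits x)⁻¹ : (Module.End K V)ˣ) :
        Module.End K V) = _ at h1
      rw [h1]
      have h2 : Units.map (LinearMap.det : Module.End K V →* K) (sc K V c * ρ.toHomUnits x) = 1 :=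
        Units.ext hg
      rw [h2, inv_one, Units.val_one]
    · rw [map_inv, map_inv, mul_inv_rev, ← map_inv (sc K V), sc_comm]

private theorem gam_finite [CharZero K] [FiniteDimensional K V] [Nontrivial V]
    (ρ : C →* Module.End K V) (D : Subgroup C) (hD : D.FiniteIndex)
    (hsc : ∀ x ∈ D, ∃ c : K, ρ x = c • (1 : Module.End K V)) : Finite (Gam ρ) := by
  classical
  have hn : 0 < Module.finrank K V := Module.finrank_pos
  let T : Set (Module.End K V) := ⋃ q : C ⧸ D,
    (fun c : K => c • ρ q.out) ''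
      {c : K | c ^ Module.finrank K V * LinearMap.det (ρ q.out) = 1}
  have hT : T.Finite := by
    refine Set.finite_iUnion fun q => Set.Finite.image _ ?_
    refine Set.Finite.subset
      ((Polynomial.nthRoots (Module.finrank K V) (LinearMap.det (ρ q.out))⁻¹).toFinset :
        Finset K).finite_toSet ?_
    intro c hc
    rw [Finset.mem_coe, Multiset.mem_toFinset, Polynomial.mem_nthRoots hn]
    exact eq_inv_of_mul_eq_one_left hc
  have hsub : ∀ g ∈ Gam ρ, ((g : (Module.End K V)ˣ) : Module.End K V) ∈ T := by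
    rintro g ⟨hg, c, x, rfl⟩
    have h1 : ((QuotientGroup.mk x : C ⧸ D).out)⁻¹ * x ∈ D := by
      rw [← QuotientGroup.eq]
      exact Quotient.out_eq _
    obtain ⟨s, hs⟩ := hsc _ h1
    set x0 := (QuotientGroup.mk x : C ⧸ D).out with hx0
    have h2 : ρ x = s • ρ x0 := by
      have : x = x0 * (x0⁻¹ * x) := by group
      conv_lhs => rw [this, map_mul, hs, mul_smul_comm, mul_one]
    have h3 : ((sc K V c * ρ.toHomUnits x : (Module.End K V)ˣ) : Module.End K V)
        = ((c : K) * s) • ρ x0 := by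
      rw [sc_val]
      change (c : K) • ρ x = _
      rw [h2, smul_smul]
    refine Set.mem_iUnion.2 ⟨QuotientGroup.mk x, (c : K) * s, ?_, h3.symm⟩
    change ((c : K) * s) ^ Module.finrank K V * LinearMap.det (ρ x0) = 1
    rw [← LinearMap.det_smul, ← h3]
    exact hg
  have hfin : (Units.val '' (Gam ρ : Set (Module.End K V)ˣ)).Finite := by
    refine hT.subset ?_
    rintro _ ⟨g, hg, rfl⟩
    exact hsub g hg
  exact (Set.Finite.of_finite_image hfin (Units.val_injective.injOn)).to_subtype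

private theorem exists_sc [IsAlgClosed K] [FiniteDimensional K V] [Nontrivial V]
    (ρ : C →* Module.End K V) (x : C) : ∃ c : Kˣ, sc K V c * ρ.toHomUnits x ∈ Gam ρ := by
  have hn : 0 < Module.finrank K V := Module.finrank_pos
  have hd : LinearMap.det (ρ x) ≠ 0 := by
    have h1 : LinearMap.det (ρ x) * LinearMap.det (ρ x⁻¹) = 1 := by
      rw [← map_mul, ← map_mul, mul_inv_cancel, map_one, map_one]
    exact left_ne_zero_of_mul_eq_one h1
  obtain ⟨c, hc⟩ := IsAlgClosed.exists_pow_nat_eq (LinearMap.det (ρ x))⁻¹ hn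
  have hc0 : c ≠ 0 := by
    rintro rfl
    rw [zero_pow hn.ne'] at hc
    exact inv_ne_zero hd hc.symm
  refine ⟨Units.mk0 c hc0, ?_, Units.mk0 c hc0, x, rfl⟩
  rw [sc_val]
  change LinearMap.det (c • ρ x) = 1
  rw [LinearMap.det_smul, hc, inv_mul_cancel₀ hd]

end JordPAux

open JordPAux in
theorem jordan_proj {K V C : Type*} [Field K] [IsAlgClosed K] [CharZero K] [AddCommGroup V]
    [Module K V] [FiniteDimensional K V] [Nontrivial V] [Group C] (ρ : C →* Module.End K V)
    (D : Subgroup C) (hD : D.FiniteIndex)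
    (hsc : ∀ x ∈ D, ∃ c : K, ρ x = c • (1 : Module.End K V)) :
    ∃ C2 : Subgroup C, C2.index ≠ 0 ∧ C2.index ≤ 5 ^ (2 * (Module.finrank K V) ^ 2) ∧
      ∀ x ∈ C2, ∀ y ∈ C2, ∃ c : K, ρ x * ρ y = c • (ρ y * ρ x) := by
  classical
  have hfin : Finite (Gam ρ) := gam_finite ρ D hD hsc
  let b := Module.finBasis K V
  let φ : Gam ρ →* Matrix.GeneralLinearGroup (Fin (Module.finrank K V)) K :=
    ((Units.mapEquiv (LinearMap.toMatrixAlgEquiv b).toMulEquiv).toMonoidHom).comp
      (Gam ρ).subtype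
  have hφ : Function.Injective φ :=
    (Units.mapEquiv (LinearMap.toMatrixAlgEquiv b).toMulEquiv).injective.comp
      Subtype.coe_injective
  obtain ⟨Γ1, hab, hidx⟩ := jordan φ hφ
  let C2 : Subgroup C :=
    { carrier := {x | ∃ (c : Kˣ) (h : sc K V c * ρ.toHomUnits x ∈ Gam ρ),
        (⟨_, h⟩ : Gam ρ) ∈ Γ1}
      one_mem' := by
        have h1 : sc K V 1 * ρ.toHomUnits 1 = 1 := by rw [map_one, map_one, mul_one]
        refine ⟨1, by rw [h1]; exact one_mem _, ?_⟩
        have h2 : (⟨sc K V 1 * ρ.toHomUnits 1, by rw [h1]; exact one_mem _⟩ : Gam ρ) = 1 :=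
          Subtype.ext h1
        rw [h2]
        exact one_mem _
      mul_mem' := by
        rintro x y ⟨c, hx, hx1⟩ ⟨d, hy, hy1⟩
        have h1 : sc K V (c * d) * ρ.toHomUnits (x * y)
            = (sc K V c * ρ.toHomUnits x) * (sc K V d * ρ.toHomUnits y) := by
          rw [map_mul, map_mul, mul_assoc, mul_assoc, ← mul_assoc (ρ.toHomUnits x),
            ← sc_comm d (ρ.toHomUnits x), mul_assoc]
        refine ⟨c * d, by rw [h1]; exact mul_mem hx hy, ?_⟩
        have h2 : (⟨sc K V (c * d) * ρ.toHomUnits (x * y), by rw [h1]; exact mul_mem hx hy⟩ :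
            Gam ρ) = ⟨_, hx⟩ * ⟨_, hy⟩ := Subtype.ext h1
        rw [h2]
        exact mul_mem hx1 hy1
      inv_mem' := by
        rintro x ⟨c, hx, hx1⟩
        have h1 : sc K V c⁻¹ * ρ.toHomUnits x⁻¹ = (sc K V c * ρ.toHomUnits x)⁻¹ := by
          rw [map_inv (ρ.toHomUnits), mul_inv_rev, ← map_inv (sc K V), sc_comm]
        refine ⟨c⁻¹, by rw [h1]; exact inv_mem hx, ?_⟩
        have h2 : (⟨sc K V c⁻¹ * ρ.toHomUnits x⁻¹, by rw [h1]; exact inv_mem hx⟩ :
            Gam ρ) = ⟨_, hx⟩⁻¹ := Subtype.ext h1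
        rw [h2]
        exact inv_mem hx1 }
  have hC2 : ∀ x : C, x ∈ C2 ↔ ∃ (c : Kˣ) (h : sc K V c * ρ.toHomUnits x ∈ Gam ρ),
      (⟨_, h⟩ : Gam ρ) ∈ Γ1 := fun _ => Iff.rfl
  -- the map to the cosets of `Γ1`
  choose cf hcf using exists_sc ρ
  let f : C → Gam ρ ⧸ Γ1 := fun x => QuotientGroup.mk ⟨_, hcf x⟩
  have hf : ∀ x y : C, f x = f y → x⁻¹ * y ∈ C2 := by
    intro x y hxy
    have h1 : ((⟨_, hcf x⟩ : Gam ρ))⁻¹ * ⟨_, hcf y⟩ ∈ Γ1 := QuotientGroup.eq.1 hxy
    have h2 : sc K V ((cf x)⁻¹ * cf y) * ρ.toHomUnits (x⁻¹ * y)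
        = (sc K V (cf x) * ρ.toHomUnits x)⁻¹ * (sc K V (cf y) * ρ.toHomUnits y) := by
      rw [map_mul, map_mul, map_inv, map_inv, mul_inv_rev]
      have h3 : sc K V (cf y) * (ρ.toHomUnits x)⁻¹ = (ρ.toHomUnits x)⁻¹ * sc K V (cf y) :=
        sc_comm _ _
      have h4 : (sc K V (cf x))⁻¹ * (ρ.toHomUnits x)⁻¹
          = (ρ.toHomUnits x)⁻¹ * (sc K V (cf x))⁻¹ := by
        rw [← map_inv]; exact sc_comm _ _
      calc (sc K V (cf x))⁻¹ * sc K V (cf y) * ((ρ.toHomUnits x)⁻¹ * ρ.toHomUnits y)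
          = (sc K V (cf x))⁻¹ * (sc K V (cf y) * (ρ.toHomUnits x)⁻¹) * ρ.toHomUnits y := by
            simp only [mul_assoc]
        _ = ((sc K V (cf x))⁻¹ * (ρ.toHomUnits x)⁻¹) * sc K V (cf y) * ρ.toHomUnits y := by
            rw [h3]; simp only [mul_assoc]
        _ = (ρ.toHomUnits x)⁻¹ * (sc K V (cf x))⁻¹ * (sc K V (cf y) * ρ.toHomUnits y) := by
            rw [h4]; simp only [mul_assoc]
    rw [hC2]
    refine ⟨(cf x)⁻¹ * cf y, by rw [h2]; exact mul_mem (inv_mem (hcf x)) (hcf y), ?_⟩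
    have h5 : (⟨sc K V ((cf x)⁻¹ * cf y) * ρ.toHomUnits (x⁻¹ * y),
        by rw [h2]; exact mul_mem (inv_mem (hcf x)) (hcf y)⟩ : Gam ρ)
        = (⟨_, hcf x⟩ : Gam ρ)⁻¹ * ⟨_, hcf y⟩ := Subtype.ext h2
    rw [h5]
    exact h1
  let F : C ⧸ C2 → Gam ρ ⧸ Γ1 := fun q => f q.out
  have hF : Function.Injective F := by
    intro q q' hqq
    have h1 := hf _ _ hqq
    rw [← QuotientGroup.eq] at h1
    rw [← Quotient.out_eq q, ← Quotient.out_eq q']
    exact h1
  have hfinQ : Finite (Gam ρ ⧸ Γ1) := inferInstance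
  have hfinC : Finite (C ⧸ C2) := Finite.of_injective F hF
  have hle : C2.index ≤ Γ1.index := by
    unfold Subgroup.index
    exact Nat.card_le_card_of_injective F hF
  refine ⟨C2, ?_, hle.trans hidx, ?_⟩
  · unfold Subgroup.index
    exact Nat.card_pos.ne'
  · rintro x ⟨c, hx, hx1⟩ y ⟨d, hy, hy1⟩
    refine ⟨1, ?_⟩
    rw [one_smul]
    have h1 := congrArg (fun g : Gam ρ => ((g : (Module.End K V)ˣ) : Module.End K V))
      (hab _ hx1 _ hy1)
    simp only [Subgroup.coe_mul, Units.val_mul] at h1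
    rw [← Units.val_mul, ← Units.val_mul, sc_val, sc_val] at h1
    change ((c : K) • ρ x) * ((d : K) • ρ y) = ((d : K) • ρ y) * ((c : K) • ρ x) at h1
    rw [smul_mul_smul_comm, smul_mul_smul_comm, mul_comm (d : K) (c : K)] at h1
    have h2 : (c : K) * (d : K) ≠ 0 := mul_ne_zero c.ne_zero d.ne_zero
    exact smul_right_injective _ h2 h1

end P9700a
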