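import Mathlib

/-!
# Kolchin's theorem: a normal unipotent subgroup of an irreducible group acts trivially

Proof. Choose a nonzero `N`-invariant subspace `V'` of minimal dimension. `V'` is a simple module over the algebra `R` = span of the restrictions of `ρ z`, `z ∈ N`, in `End K V'` (a subalgebra, `N` is a group). As `K` is algebraically closed `End_R V' = K` (Schur: an `R`-endomorphism has an eigenvalue, the eigenspace is `N`-invariant), so `R = End K V'` by the
Jacobson density theorem (`jacobson_density` in Mathlib.RingTheory.SimpleModule.Basic; or any other proof of Burnside's theorem). For `z, y ∈ N`: `trace (ρ z) = dim V'` on `V'` as `ρ z - 1` is nilpotent (`LinearMap.isNilpotent_trace_of_isNilpotent`), so `trace ((ρ z - 1) ρ y) = trace (ρ (z y)) - trace (ρ y) = 0` on `V'`; by linearity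
`trace ((ρ z - 1) X) = 0` for all `X ∈ End K V'`, so `ρ z = 1` on `V'`. So `F = {v : ∀ z ∈ N, ρ z v = v} ≠ ⊥`; `F` is invariant under all `ρ a` (`N` is normal), so `F = ⊤`.
-/

set_option autoImplicit false

namespace P9700a

namespace KolchAux

section
variable {K W H : Type*} [Field K] [IsAlgClosed K] [AddCommGroup W] [Module K W]
  [FiniteDimensional K W] [Group H]

/-- Burnside's theorem, by the density theorem. -/
theorem burnside (σ : Representation K H W) [IsSimpleModule (MonoidAlgebra K H) σ.asModule]
    (X : W →ₗ[K] W) : ∃ r : MonoidAlgebra K H, σ.asAlgebraHom r = X := by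
  have hfin : Module.Finite (Module.End (MonoidAlgebra K H) σ.asModule) σ.asModule :=
    Module.Finite.of_restrictScalars_finite K _ _
  have hbij : Function.Bijective (algebraMap K (Module.End (MonoidAlgebra K H) σ.asModule)) :=
    IsSimpleModule.algebraMap_end_bijective_of_isAlgClosed K
  let e := σ.asModuleEquiv
  let f : Module.End (Module.End (MonoidAlgebra K H) σ.asModule) σ.asModule :=
    { toFun := fun m => e.symm (X (e m))
      map_add' := fun a b => by simp
      map_smul' := fun g m => by
        obtain ⟨c, rfl⟩ := hbij.2 g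
        rw [algebraMap_smul, RingHom.id_apply, algebraMap_smul, map_smul, map_smul, map_smul] }
  obtain ⟨r, hr⟩ := Module.Finite.toModuleEnd_moduleEnd_surjective (R := MonoidAlgebra K H)
    (M := σ.asModule) f
  refine ⟨r, ?_⟩
  ext w
  have h1 : r • (e.symm w) = f (e.symm w) := by rw [← hr]; rfl
  have h2 : e (r • (e.symm w)) = σ.asAlgebraHom r w := by
    rw [Representation.asModuleEquiv_map_smul, LinearEquiv.apply_symm_apply]
  rw [← h2, h1]
  change e (e.symm (X (e (e.symm w)))) = X w
  rw [LinearEquiv.apply_symm_apply, LinearEquiv.apply_symm_apply]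

omit [IsAlgClosed K] [FiniteDimensional K W] in
theorem trace_eq (T : W →ₗ[K] W) (hT : IsNilpotent (T - 1)) :
    LinearMap.trace K W T = LinearMap.trace K W 1 := by
  have h := (LinearMap.isNilpotent_trace_of_isNilpotent hT).eq_zero
  rw [map_sub] at h
  exact sub_eq_zero.1 h

theorem eq_one (σ : Representation K H W) [IsSimpleModule (MonoidAlgebra K H) σ.asModule]
    (hσ : ∀ h, IsNilpotent (σ h - 1)) (z : H) : σ z = 1 := by
  have h1 : ∀ r : MonoidAlgebra K H, LinearMap.trace K W ((σ z - 1) * σ.asAlgebraHom r) = 0 := by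
    intro r
    induction r using MonoidAlgebra.induction_linear with
    | zero => simp
    | add x y hx hy => rw [map_add, mul_add, map_add, hx, hy, add_zero]
    | single g a =>
      rw [Representation.asAlgebraHom_single, mul_smul_comm, map_smul, sub_mul, one_mul, ← map_mul,
        map_sub, trace_eq _ (hσ (z * g)), trace_eq _ (hσ g), sub_self, smul_zero]
  have h2 : σ z - 1 = 0 := by
    ext v
    rw [LinearMap.zero_apply, ← Module.forall_dual_apply_eq_zero_iff K]
    intro f
    obtain ⟨r, hr⟩ := burnside σ (f.smulRight v)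
    have h3 := h1 r
    rw [hr] at h3
    have h4 : (σ z - 1) * (f.smulRight v) = f.smulRight ((σ z - 1) v) := by
      ext w
      simp
    rw [h4, LinearMap.trace_smulRight] at h3
    exact h3
  exact sub_eq_zero.1 h2

end

end KolchAux

open KolchAux

theorem kolchin {K V A : Type*} [Field K] [IsAlgClosed K] [AddCommGroup V] [Module K V]
    [FiniteDimensional K V] [Nontrivial V] [Group A] (ρ : A →* Module.End K V)
    (hirr : ∀ X : Submodule K V, (∀ a : A, ∀ x ∈ X, ρ a x ∈ X) → X = ⊥ ∨ X = ⊤)
    (N : Subgroup A) [N.Normal] (hN : ∀ z ∈ N, IsNilpotent (ρ z - 1)) :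
    ∀ z ∈ N, ρ z = 1 := by
  -- a minimal invariant subspace
  let S : Set (Submodule K V) := {X | X ≠ ⊥ ∧ ∀ z ∈ N, ∀ x ∈ X, ρ z x ∈ X}
  have hS : (⊤ : Submodule K V) ∈ S := ⟨top_ne_bot, fun _ _ _ _ => Submodule.mem_top⟩
  obtain ⟨X, hX, hmin⟩ := (wellFounded_lt (α := Submodule K V)).has_min S ⟨⊤, hS⟩
  obtain ⟨hX0, hXN⟩ := hX
  let σ : Representation K N X :=
    { toFun := fun z => (ρ z.1).restrict (fun x hx => hXN z.1 z.2 x hx)
      map_one' := by
        ext x
        simp
      map_mul' := fun a b => by
        ext x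
        simp }
  have hσ : ∀ (z : N) (x : X), ((σ z x : X) : V) = ρ z.1 x := fun z x => rfl
  have hsim : IsSimpleModule (MonoidAlgebra K N) σ.asModule := by
    rw [← Representation.irreducible_iff_isSimpleModule_asModule]
    have hne : Nontrivial (Subrepresentation σ) := by
      refine ⟨⊥, ⊤, ?_⟩
      intro h
      have h' : (⊥ : Submodule K X) = ⊤ := congrArg Subrepresentation.toSubmodule h
      have : Nontrivial X := Submodule.nontrivial_iff_ne_bot.2 hX0
      exact bot_ne_top h'
    refine ⟨fun Y => ?_⟩
    by_cases hY : Y.toSubmodule = ⊥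
    · left
      exact Subrepresentation.toSubmodule_injective hY
    · right
      apply Subrepresentation.toSubmodule_injective
      have h1 : Y.toSubmodule.map X.subtype ∈ S := by
        refine ⟨?_, ?_⟩
        · intro h0
          apply hY
          apply Submodule.map_injective_of_injective X.subtype_injective
          rw [h0, Submodule.map_bot]
        · rintro z hz _ ⟨y, hy, rfl⟩
          exact ⟨σ ⟨z, hz⟩ y, Y.apply_mem_toSubmodule ⟨z, hz⟩ hy, rfl⟩
      have h2 := hmin _ h1
      have h3 : Y.toSubmodule.map X.subtype ≤ X := Submodule.map_subtype_le _ _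
      have h4 : Y.toSubmodule.map X.subtype = X := by
        by_contra hne'
        exact h2 (lt_of_le_of_ne h3 hne')
      change Y.toSubmodule = ⊤
      rw [eq_top_iff]
      intro x _
      have h5 : (x : V) ∈ Y.toSubmodule.map X.subtype := by rw [h4]; exact x.2
      obtain ⟨y, hy, hyx⟩ := h5
      have : y = x := Subtype.ext hyx
      rwa [← this]
  have hnil : ∀ z : N, IsNilpotent (σ z - 1) := by
    rintro ⟨z, hz⟩
    obtain ⟨n, hn⟩ := hN z hz
    refine ⟨n, ?_⟩
    have h1 : ∀ (m : ℕ) (x : X), ((((σ ⟨z, hz⟩ - 1) ^ m) x : X) : V) = ((ρ z - 1) ^ m) (x : V) := by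
      intro m
      induction m with
      | zero => intro x; rfl
      | succ m ih =>
        intro x
        rw [pow_succ, pow_succ]
        exact ih ((σ ⟨z, hz⟩ - 1) x)
    ext x
    rw [h1, hn]
    rfl
  have hone : ∀ z : N, σ z = 1 := fun z => eq_one σ hnil z
  let F : Submodule K V :=
    { carrier := {v | ∀ z ∈ N, ρ z v = v}
      add_mem' := fun {a b} ha hb z hz => by rw [map_add, ha z hz, hb z hz]
      zero_mem' := fun z _ => map_zero _
      smul_mem' := fun c v hv z hz => by rw [map_smul, hv z hz] }
  have hF : F = ⊥ ∨ F = ⊤ := by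
    apply hirr
    intro a x hx z hz
    have h1 : a⁻¹ * z * a ∈ N := by
      have := (inferInstance : N.Normal).conj_mem z hz a⁻¹
      rwa [inv_inv] at this
    have h2 := hx _ h1
    have h3 : ρ z (ρ a x) = ρ a (ρ (a⁻¹ * z * a) x) := by
      rw [← Module.End.mul_apply, ← Module.End.mul_apply, ← map_mul, ← map_mul]
      congr 2
      group
    rw [h3, h2]
  rcases hF with hF | hF
  · exfalso
    apply hX0
    rw [eq_bot_iff, ← hF]
    intro x hx z hz
    have h1 : σ ⟨z, hz⟩ ⟨x, hx⟩ = ⟨x, hx⟩ := by rw [hone]; rfl
    exact congrArg Subtype.val h1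
  · intro z hz
    ext v
    have : v ∈ F := by rw [hF]; exact Submodule.mem_top
    exact this z hz

end P9700a
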