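import Mathlib

/-!
# Orders of finite linear groups over residue fields: bounded `l`-parts for infinitely many primes

* `gl_card_dvd`: `k = {y ∈ AlgebraicClosure (ZMod p) : y^(p^f) = y}` is a subfield with `p^f` elements (roots of the separable polynomial `X^(p^f) - X`, compare `GaloisField`); the matrices of `Γ` have entries in `k`, their inverses too, so `Γ` embeds into `GL_n(k)`, of order
  `∏_{i < n} ((p^f)^n - (p^f)^i)` (`Matrix.card_GL_field`); Lagrange.
* `exists_good_prime`: let `M0` be the product of the primes `l ≤ n`, `p` a prime `> max N n` with `p ≡ 1 + M0^2 mod M0^3` (Dirichlet: `Nat.forall_exists_prime_gt_and_eq_mod`; `1 + M0^2` is a unit mod `M0^3`). For `l ≤ n` prime: `l^2` divides `p - 1`, `l^3` does not. So (lifting the exponent, valid also for `l = 2` as `4 ∣ p - 1`;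
  `Nat.emultiplicity_pow_sub_pow`/`padicValNat.pow_sub_pow` for odd `l`, `Int.two_pow_sub_pow`, `padicValNat.pow_two_sub_pow` or a direct induction for `l = 2`) `v_l(p^m - 1) = 2 + v_l(m) ≤ 2 + m` for `m ≥ 1`.
  `v_l((p^f)^n - (p^f)^i) = v_l(p^(f (n-i)) - 1) ≤ 2 + f n ≤ 2 + D n`, and the product of `n` factors has `v_l ≤ n (2 + D n)`. `b = n (2 + D n) + 1`.
  (Direct proof of a bound without LTE: any bound for `v_l(p^m - 1)` depending only on `l`, `m ≤ D n` is enough, e.g. via `p^m - 1 = (p - 1)(1 + ... + p^(m-1))` and induction on `v_l(m)`; or choose `p ≡ 1 + M0^2 mod M0^c` with `c` large and note `p^m ≡ (1 + M0^2)^m mod l^c`, a fixed number `≠ 1`: if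
  `M0^c > (1 + M0^2)^(D n)` suitably for each `l` then `l^c ∤ p^m - 1` for `1 ≤ m ≤ D n`, since `(1 + M0^2)^m - 1` is a positive integer smaller than `l^c`. This is elementary: with `l^c > (1 + M0^2)^(D n)`, `l^c ∣ p^m - 1` would give `l^c ∣ (1+M0^2)^m - 1 > 0`, impossible. Then `b = n c + 1` works.)
-/

set_option autoImplicit false

namespace P9700a

namespace GLBoundAux

open Polynomial

theorem card_fixed {p : ℕ} [Fact p.Prime] (f : ℕ) (hf : 1 ≤ f) :
    ∃ K : Subfield (AlgebraicClosure (ZMod p)), (∀ y, y ∈ K ↔ y ^ p ^ f = y) ∧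
      Finite K ∧ Nat.card K = p ^ f := by
  classical
  let L := AlgebraicClosure (ZMod p)
  let K : Subfield L := RingHom.eqLocusField (iterateFrobenius L p f) (RingHom.id L)
  have hK : ∀ y, y ∈ K ↔ y ^ p ^ f = y := fun y => Iff.rfl
  have h1p : 1 < p := (Fact.out : p.Prime).one_lt
  have hf0 : f ≠ 0 := by omega
  let P : (ZMod p)[X] := X ^ p ^ f - X
  have hdeg : P.natDegree = p ^ f := FiniteField.X_pow_card_pow_sub_X_natDegree_eq (ZMod p) hf0 h1p
  have hP0 : P ≠ 0 := FiniteField.X_pow_card_pow_sub_X_ne_zero (ZMod p) hf0 h1p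
  have hsep : P.Separable := galois_poly_separable p (p ^ f) (dvd_pow_self p hf0)
  have hsplit : (P.map (algebraMap (ZMod p) L)).Splits := IsAlgClosed.splits _
  have hroot : (P.rootSet L) = (K : Set L) := by
    ext y
    rw [mem_rootSet]
    constructor
    · rintro ⟨-, h⟩
      have h' : y ^ p ^ f - y = 0 := by simpa [P] using h
      exact (hK y).2 (sub_eq_zero.1 h')
    · intro h
      have h' : y ^ p ^ f = y := (hK y).1 h
      exact ⟨hP0, by simp [P, h']⟩
  have hc : Fintype.card (P.rootSet L) = p ^ f := by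
    rw [card_rootSet_eq_natDegree hsep hsplit, hdeg]
  have hfin : Finite (K : Set L) := by
    rw [← hroot]
    exact Finite.of_fintype _
  refine ⟨K, hK, hfin, ?_⟩
  have h2 : Nat.card (K : Set L) = Nat.card (P.rootSet L) := by rw [hroot]
  have h3 : Nat.card (P.rootSet L) = p ^ f := by rw [Nat.card_eq_fintype_card, hc]
  exact h2.trans h3

theorem not_pow_dvd_prod {l c : ℕ} (hl : l.Prime) (s : Finset ℕ) (a : ℕ → ℕ)
    (h : ∀ i ∈ s, ¬ l ^ c ∣ a i) : ¬ l ^ (s.card * c + 1) ∣ ∏ i ∈ s, a i := by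
  have h0 : ∀ i ∈ s, a i ≠ 0 := by
    intro i hi h0
    apply h i hi
    rw [h0]
    exact dvd_zero _
  intro hd
  rw [hl.pow_dvd_iff_le_factorization (Finset.prod_ne_zero_iff.2 h0),
    Nat.factorization_prod h0, Finsupp.finsetSum_apply] at hd
  have h1 : ∑ i ∈ s, (a i).factorization l ≤ ∑ i ∈ s, c := by
    refine Finset.sum_le_sum fun i hi => ?_
    by_contra hlt
    push Not at hlt
    exact h i hi ((hl.pow_dvd_iff_le_factorization (h0 i hi)).2 hlt.le)
  rw [Finset.sum_const, smul_eq_mul] at h1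
  omega

end GLBoundAux

theorem gl_card_dvd {p : ℕ} [Fact p.Prime] (f n : ℕ) (hf : 1 ≤ f)
    (Γ : Subgroup (Matrix.GeneralLinearGroup (Fin n) (AlgebraicClosure (ZMod p))))
    (h : ∀ g ∈ Γ, ∀ i j : Fin n, (g i j) ^ (p ^ f) = g i j) :
    Finite Γ ∧ Nat.card Γ ∣ ∏ i ∈ Finset.range n, ((p ^ f) ^ n - (p ^ f) ^ i) := by
  classical
  obtain ⟨K, hK, hKf, hKc⟩ := GLBoundAux.card_fixed (p := p) f hf
  have _ : Fintype K := Fintype.ofFinite K
  let φ : Matrix.GeneralLinearGroup (Fin n) K →*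
      Matrix.GeneralLinearGroup (Fin n) (AlgebraicClosure (ZMod p)) :=
    Matrix.GeneralLinearGroup.map K.subtype
  have hφ : Function.Injective φ := by
    intro a b hab
    apply Units.ext
    ext i j
    have h1 : (φ a) i j = (φ b) i j := by rw [hab]
    exact h1
  have hle : Γ ≤ φ.range := by
    intro g hg
    have hgi : g⁻¹ ∈ Γ := Γ.inv_mem hg
    let a : Matrix (Fin n) (Fin n) K := fun i j => ⟨g i j, (hK _).2 (h g hg i j)⟩
    let b : Matrix (Fin n) (Fin n) K := fun i j => ⟨g⁻¹ i j, (hK _).2 (h g⁻¹ hgi i j)⟩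
    have hinj : Function.Injective (K.subtype.mapMatrix (m := Fin n)) := by
      intro x y hxy
      ext i j
      exact congrFun (congrFun hxy i) j
    have ha : K.subtype.mapMatrix a = (g : Matrix (Fin n) (Fin n) (AlgebraicClosure (ZMod p))) := by
      ext i j
      rfl
    have hb : K.subtype.mapMatrix b
        = ((g⁻¹ : Matrix.GeneralLinearGroup (Fin n) (AlgebraicClosure (ZMod p))) :
          Matrix (Fin n) (Fin n) (AlgebraicClosure (ZMod p))) := by
      ext i j
      rfl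
    have hab : a * b = 1 := by
      apply hinj
      rw [map_mul, ha, hb, map_one]
      exact g.mul_inv
    have hba : b * a = 1 := by
      apply hinj
      rw [map_mul, ha, hb, map_one]
      exact g.inv_mul
    refine ⟨⟨a, b, hab, hba⟩, ?_⟩
    apply Units.ext
    exact ha
  have hfr : Finite φ.range := Set.finite_range φ |>.to_subtype
  have hfin : Finite Γ := Finite.of_injective (Subgroup.inclusion hle) (Subgroup.inclusion_injective hle)
  refine ⟨hfin, (Subgroup.card_dvd_of_le hle).trans ?_⟩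
  have h1 : Nat.card φ.range = Nat.card (Matrix.GeneralLinearGroup (Fin n) K) :=
    (Nat.card_congr (MonoidHom.ofInjective hφ).toEquiv).symm
  rw [h1, Matrix.card_GL_field, ← Nat.card_eq_fintype_card, hKc,
    Finset.prod_range (fun i => (p ^ f) ^ n - (p ^ f) ^ i)]

theorem exists_good_prime (n D : ℕ) : ∃ b : ℕ, ∀ N : ℕ, ∃ p : ℕ, N < p ∧ p.Prime ∧
    ∀ f : ℕ, 1 ≤ f → f ≤ D → ∀ l : ℕ, l.Prime → l ≤ n →
      ¬ l ^ b ∣ ∏ i ∈ Finset.range n, ((p ^ f) ^ n - (p ^ f) ^ i) := by
  set M := n.factorial with hM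
  have hM0 : 0 < M := Nat.factorial_pos n
  set a := 1 + M ^ 2 with ha
  have ha1 : 1 < a := by
    have : 0 < M ^ 2 := pow_pos hM0 2
    omega
  set c := a ^ (D * n) with hc
  have hc1 : 1 ≤ c := Nat.one_le_pow _ _ (by omega)
  refine ⟨n * c + 1, fun N => ?_⟩
  have hcop : a.Coprime (M ^ c) := by
    apply Nat.Coprime.pow_right
    rw [ha, pow_two]
    simp
  obtain ⟨p, hpN, hp, hpm⟩ := Nat.forall_exists_prime_gt_and_modEq (max N n)
    (pow_ne_zero c hM0.ne') hcop
  refine ⟨p, lt_of_le_of_lt (le_max_left _ _) hpN, hp, fun f hf1 hfD l hl hln => ?_⟩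
  have hlM : l ∣ M := (hl.dvd_factorial).2 hln
  have hlc : l ^ c ∣ M ^ c := pow_dvd_pow_of_dvd hlM c
  have hpl : p ≡ a [MOD l ^ c] := hpm.of_dvd hlc
  have hcl : c < l ^ c := Nat.lt_pow_self hl.one_lt
  have key : ∀ m, 1 ≤ m → m ≤ D * n → ¬ l ^ c ∣ p ^ m - 1 := by
    intro m hm1 hm2 hd
    have h1 : 1 ≤ p ^ m := Nat.one_le_pow _ _ hp.pos
    have h2 : p ^ m ≡ 1 [MOD l ^ c] := ((Nat.modEq_iff_dvd' h1).2 hd).symm
    have h3 : a ^ m ≡ 1 [MOD l ^ c] := (hpl.pow m).symm.trans h2
    have h4 : 1 ≤ a ^ m := Nat.one_le_pow _ _ (by omega)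
    have h5 : l ^ c ∣ a ^ m - 1 := (Nat.modEq_iff_dvd' h4).1 h3.symm
    have h6 : 1 < a ^ m := Nat.one_lt_pow (by omega) ha1
    have h7 : l ^ c ≤ a ^ m - 1 := Nat.le_of_dvd (by omega) h5
    have h8 : a ^ m ≤ a ^ (D * n) := Nat.pow_le_pow_right (by omega) hm2
    rw [← hc] at h8
    omega
  have hfac : ∀ i ∈ Finset.range n, ¬ l ^ c ∣ (p ^ f) ^ n - (p ^ f) ^ i := by
    intro i hi hd
    have hi' : i < n := Finset.mem_range.1 hi
    have e1 : (p ^ f) ^ n - (p ^ f) ^ i = (p ^ f) ^ i * (p ^ (f * (n - i)) - 1) := by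
      rw [Nat.mul_sub, mul_one, pow_mul p f (n - i), ← pow_add]
      congr 2
      omega
    rw [e1] at hd
    have hcp : (l ^ c).Coprime ((p ^ f) ^ i) := by
      apply Nat.Coprime.pow_left
      apply Nat.Coprime.pow_right
      apply Nat.Coprime.pow_right
      rw [Nat.coprime_primes hl hp]
      have := lt_of_le_of_lt (le_max_right N n) hpN
      omega
    have hd' := hcp.dvd_of_dvd_mul_left hd
    refine key (f * (n - i)) ?_ ?_ hd'
    · exact Nat.mul_pos (by omega) (by omega)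
    · exact Nat.mul_le_mul hfD (Nat.sub_le _ _)
  have h9 := GLBoundAux.not_pow_dvd_prod hl (Finset.range n) _ hfac
  rwa [Finset.card_range] at h9

end P9700a
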