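import Mathlib

/-!
# A finite group with few generators that embeds into a product of small groups is small

`T` finite, generated by at most `r` elements, homomorphisms `f i : T →* Γ i` (any index set) with images of order at most `b`, jointly injective. Then `|T| ≤ B(r, b) = (b!)^((b!)^r)`.

Proof. The image of `f i` has order `m ≤ b`; by Cayley it embeds into `Perm (Fin b)` (left translations on the image, `Fin m → Fin b`), so there is a homomorphism `g i : T →* Perm (Fin b)` with `ker (g i) = ker (f i)`. A homomorphism `T →* Perm (Fin b)` is determined by its values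
on a generating set with `≤ r` elements, so there are at most `(b!)^r` of them (`T →* Perm (Fin b)` is finite of cardinality `≤ (b!)^r`). The homomorphism from `T` to the product of `Perm (Fin b)` over ALL homomorphisms `T →* Perm (Fin b)` is injective (its kernel is contained in all `ker (g i)`), so
`|T| ≤ (b!)^((b!)^r)`.
-/

set_option autoImplicit false

universe u v w

namespace P9700a

theorem card_le_of_jointly_injective (r b : ℕ) : ∃ B : ℕ,
    ∀ (T : Type u) [Group T] [Finite T] (ι : Type v) (Γ : ι → Type w) [∀ i, Group (Γ i)]
      (f : ∀ i, T →* Γ i),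
      (∃ s : Finset T, s.card ≤ r ∧ Subgroup.closure (s : Set T) = ⊤) →
      (∀ i, Nat.card (f i).range ≤ b) → (∀ t : T, (∀ i, f i t = 1) → t = 1) →
      Nat.card T ≤ B := by
  refine ⟨(Nat.card (Equiv.Perm (Fin b))) ^ ((Nat.card (Equiv.Perm (Fin b))) ^ r), ?_⟩
  intro T _ _ ι Γ _ f hs hb hinj
  obtain ⟨s, hsr, hst⟩ := hs
  have hP : 1 ≤ Nat.card (Equiv.Perm (Fin b)) := Nat.card_pos
  -- homomorphisms to the symmetric group
  have hres : Function.Injective (fun (h : T →* Equiv.Perm (Fin b)) (x : s) => h x) := by
    intro h h' e
    refine MonoidHom.eq_of_eqOn_dense hst ?_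
    intro x hx
    exact congrFun e ⟨x, hx⟩
  have hfin : Finite (T →* Equiv.Perm (Fin b)) := Finite.of_injective _ hres
  have hcard : Nat.card (T →* Equiv.Perm (Fin b)) ≤ (Nat.card (Equiv.Perm (Fin b))) ^ r := by
    refine (Nat.card_le_card_of_injective _ hres).trans ?_
    rw [Nat.card_fun]
    refine Nat.pow_le_pow_right hP ?_
    rw [Nat.card_eq_fintype_card, Fintype.card_coe]
    exact hsr
  have hΦ : Function.Injective (fun (t : T) (h : T →* Equiv.Perm (Fin b)) => h t) := by
    intro t t' e
    have h1 : t⁻¹ * t' = 1 := by
      refine hinj _ fun i => ?_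
      have hfr : Finite (f i).range := Finite.of_surjective (f i).rangeRestrict
        (f i).rangeRestrict_surjective
      have hemb : Nonempty ((f i).range ↪ Fin b) := by
        have : Fintype (f i).range := Fintype.ofFinite _
        rw [Function.Embedding.nonempty_iff_card_le, Fintype.card_fin, ← Nat.card_eq_fintype_card]
        exact hb i
      obtain ⟨em⟩ := hemb
      let h : T →* Equiv.Perm (Fin b) := ((Equiv.Perm.viaEmbeddingHom em).comp
        (MulAction.toPermHom (f i).range (f i).range)).comp (f i).rangeRestrict
      have h2 : h (t⁻¹ * t') = 1 := by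
        rw [map_mul, map_inv, inv_mul_eq_one]
        exact congrFun e h
      have h3 : (f i).rangeRestrict (t⁻¹ * t') = 1 := by
        have h4 := Equiv.Perm.viaEmbeddingHom_injective em (h2.trans (map_one _).symm)
        have h5 := congrArg (fun p : Equiv.Perm (f i).range => p 1) h4
        simp only [Equiv.Perm.coe_one, id] at h5
        have h6 : (f i).rangeRestrict (t⁻¹ * t') * 1 = 1 := h5
        rwa [mul_one] at h6
      exact congrArg Subtype.val h3
    exact (inv_mul_eq_one.mp h1)
  refine (Nat.card_le_card_of_injective _ hΦ).trans ?_
  rw [Nat.card_fun]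
  exact Nat.pow_le_pow_right hP hcard

end P9700a
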