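import Mathlib
import Pool.Agent.Lib.P9700a.Defs
import Pool.Agent.Lib.P9700a.Rank
import Pool.Agent.Lib.P9700c.SubBound

/-!
# A family of finite quotients of a group of finite rank with bounded Sylow subgroups

`A` of finite rank, homomorphisms `π i : A →* Γ i` with finite images whose orders are not divisible by `ℓ ^ b`, `ℓ ∈ L` (a finite set of primes). Then a normal subgroup `A1` of finite index has images `π i (A1)` of order prime to all `ℓ ∈ L`, for all `i`.

Proof. For a finite set `P` of indices let `N P = ⨅ i ∈ P, (π i).ker`, normal of finite index. Let `ℓ ∈ L` and let `T` be a Sylow `ℓ`-subgroup of `A ⧸ N P`. `T` is generated by at most `r` elements (`r` the rank bound of `A`: `FR` is inherited by the quotient `A ⧸ N P` with the same `r`; repeat the argument of `FR.of_surjective`, or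
take `r` from `FR.of_surjective` applied to... careful: the bound must not depend on `P`: a finite subgroup `T` of the quotient is the image of a f.g. subgroup of `A`, which has `≤ r` generators). The induced maps `T → Γ i`, `i ∈ P`, are jointly injective; the image is an `ℓ`-group contained in `(π i).range`, so its order is a power of `ℓ`
dividing `|(π i).range|`, so `< ℓ ^ b`. `card_le_of_jointly_injective r (ℓ^b)`: `|T| ≤ B_ℓ`, independent of `P`. So the `ℓ`-part of the index of `N P` is at most `B_ℓ` for all `P`. Choose `P0` such that `∏_{ℓ ∈ L} (ℓ-part of [A : N P0])` is maximal (`padicValNat`/`ordProj`, or maximise `∑_{ℓ ∈ L} padicValNat ℓ (N P).index`), `A1 = N P0`.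
For an index `i` let `P1 = insert i P0`: `[A : N P1] = [A : N P0] · [N P0 : N P1]`, by maximality `ℓ ∤ [N P0 : N P1]` for all `ℓ ∈ L`; and `A1.map (π i) ≅ A1 ⧸ (A1 ⊓ ker (π i)) = N P0 ⧸ N P1`, so `Nat.card (A1.map (π i)) = (N P1).relIndex (N P0)` (`Subgroup.relIndex_ker`: `f.ker.relIndex K = Nat.card (K.map f)`).
-/

set_option autoImplicit false

universe u v w

namespace P9700a

namespace KillLAux

/-- intersection of finitely many kernels -/
def NP {A : Type u} [Group A] {ι : Type v} {Γ : ι → Type w} [∀ i, Group (Γ i)]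
    (π : ∀ i, A →* Γ i) (P : Finset ι) : Subgroup A := ⨅ i ∈ P, (π i).ker

section

variable {A : Type u} [Group A] {ι : Type v} {Γ : ι → Type w} [∀ i, Group (Γ i)]
    (π : ∀ i, A →* Γ i)

theorem NP_le (P : Finset ι) {i : ι} (hi : i ∈ P) : NP π P ≤ (π i).ker :=
  iInf₂_le i hi

theorem mem_NP (P : Finset ι) (x : A) : x ∈ NP π P ↔ ∀ i ∈ P, π i x = 1 := by
  unfold NP
  simp only [Subgroup.mem_iInf, MonoidHom.mem_ker]

theorem NP_normal (P : Finset ι) : (NP π P).Normal := by
  constructor
  intro n hn g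
  rw [mem_NP] at hn ⊢
  intro i hi
  rw [map_mul, map_mul, hn i hi, mul_one, ← map_mul, mul_inv_cancel, map_one]

theorem NP_insert [DecidableEq ι] (P : Finset ι) (i : ι) :
    NP π (insert i P) = (π i).ker ⊓ NP π P := by
  ext x
  rw [Subgroup.mem_inf, mem_NP, mem_NP, MonoidHom.mem_ker, Finset.forall_mem_insert]

theorem NP_empty : NP π (∅ : Finset ι) = ⊤ := by
  ext x
  rw [mem_NP]
  simp

theorem ker_finiteIndex (hfin : ∀ i, Finite (π i).range) (i : ι) : (π i).ker.FiniteIndex := by
  haveI := hfin i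
  refine ⟨?_⟩
  rw [Subgroup.index_ker]
  exact Nat.card_pos.ne'

theorem NP_finiteIndex (hfin : ∀ i, Finite (π i).range) (P : Finset ι) :
    (NP π P).FiniteIndex := by
  classical
  induction P using Finset.induction_on with
  | empty => rw [NP_empty]; infer_instance
  | insert i P hi ih =>
    rw [NP_insert]
    haveI := ih
    haveI := ker_finiteIndex π hfin i
    infer_instance

end

/-- a finite subgroup of a quotient of a group of rank `r` is `r`-generated -/
theorem gen_finite {A : Type u} {Q : Type u} [Group A] [Group Q] (f : A →* Q)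
    (hf : Function.Surjective f) (r : ℕ)
    (hr : ∀ K : Subgroup A, K.FG → ∃ s : Finset A, s.card ≤ r ∧ Subgroup.closure (s : Set A) = K)
    (T : Subgroup Q) [Finite T] :
    ∃ s : Finset T, s.card ≤ r ∧ Subgroup.closure (s : Set T) = ⊤ := by
  classical
  haveI : Finite (T : Set Q) := inferInstanceAs (Finite T)
  obtain ⟨g, hg⟩ := hf.hasRightInverse
  set t : Finset Q := (Set.toFinite (T : Set Q)).toFinset with ht
  have htc : (t : Set Q) = (T : Set Q) := Set.Finite.coe_toFinset _
  obtain ⟨s, hs1, hs2⟩ := hr (Subgroup.closure ((t.image g : Finset A) : Set A)) ⟨t.image g, rfl⟩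
  have h1 : Subgroup.closure ((s.image f : Finset Q) : Set Q) = T := by
    rw [Finset.coe_image, ← MonoidHom.map_closure, hs2, MonoidHom.map_closure, Finset.coe_image,
      Set.image_image]
    have h2 : (fun x => f (g x)) '' (t : Set Q) = (t : Set Q) := by
      have h3 : (fun x => f (g x)) = id := funext hg
      rw [h3, Set.image_id]
    rw [h2, htc, Subgroup.closure_eq]
  have h4 : Subgroup.closure ((s.image f : Finset Q) : Set Q) = (⊤ : Subgroup T).map T.subtype := by
    rw [h1, ← MonoidHom.range_eq_map, Subgroup.range_subtype]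
  obtain ⟨s', h5, h6⟩ := RankAux.lift_inj T.subtype (Subgroup.subtype_injective T) ⊤ _ h4
  exact ⟨s', (h5.trans Finset.card_image_le).trans hs1, h6⟩

/-- the `l`-part of the index of `NP π P` is bounded independently of `P` -/
theorem val_bound {A : Type u} [Group A] (hA : FR A) {ι : Type v} (Γ : ι → Type w)
    [∀ i, Group (Γ i)] (π : ∀ i, A →* Γ i) (hfin : ∀ i, Finite (π i).range)
    (l : ℕ) (hl : l.Prime) (b : ℕ)
    (hb : ∀ i, ¬ l ^ b ∣ Nat.card (π i).range) :
    ∃ B : ℕ, ∀ P : Finset ι, (NP π P).index.factorization l ≤ B := by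
  classical
  obtain ⟨r, hr⟩ := hA
  obtain ⟨B, hB⟩ := card_le_of_jointly_injective.{u, v, w} r (l ^ b)
  refine ⟨B, fun P => ?_⟩
  haveI := NP_normal π P
  haveI := NP_finiteIndex π hfin P
  haveI : Fact l.Prime := ⟨hl⟩
  haveI : Finite (A ⧸ NP π P) := Subgroup.finite_quotient_of_finiteIndex
  obtain ⟨T⟩ : Nonempty (Sylow l (A ⧸ NP π P)) := inferInstance
  let F : ∀ i : {i // i ∈ P}, (T : Subgroup (A ⧸ NP π P)) →* Γ i.1 := fun i =>
    (QuotientGroup.lift (NP π P) (π i.1) (NP_le π P i.2)).comp (T : Subgroup (A ⧸ NP π P)).subtype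
  have h1 := hB (T : Subgroup (A ⧸ NP π P)) {i // i ∈ P} (fun i => Γ i.1) F ?_ ?_ ?_
  · rw [Sylow.card_eq_multiplicity] at h1
    have h2 : Nat.card (A ⧸ NP π P) = (NP π P).index := rfl
    rw [h2] at h1
    exact (Nat.lt_pow_self hl.one_lt).le.trans h1
  · exact gen_finite (QuotientGroup.mk' (NP π P)) (QuotientGroup.mk'_surjective _) r hr _
  · intro i
    have hp : IsPGroup l (F i).range :=
      IsPGroup.of_surjective T.2 (F i).rangeRestrict (MonoidHom.rangeRestrict_surjective _)
    haveI := hfin i.1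
    have hle : (F i).range ≤ (π i.1).range := by
      rintro _ ⟨⟨y, hy⟩, rfl⟩
      obtain ⟨a, rfl⟩ := QuotientGroup.mk'_surjective (NP π P) y
      exact ⟨a, rfl⟩
    haveI : Finite (F i).range := Finite.of_injective _ (Subgroup.inclusion_injective hle)
    obtain ⟨k, hk⟩ := IsPGroup.iff_card.1 hp
    rw [hk]
    have hdvd : l ^ k ∣ Nat.card (π i.1).range := by
      rw [← hk]
      exact Subgroup.card_dvd_of_le hle
    apply Nat.pow_le_pow_right hl.pos
    by_contra hkb
    exact hb i.1 ((pow_dvd_pow l (not_le.1 hkb).le).trans hdvd)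
  · rintro ⟨y, hy⟩ h
    obtain ⟨a, rfl⟩ := QuotientGroup.mk'_surjective (NP π P) y
    apply Subtype.ext
    change QuotientGroup.mk' (NP π P) a = 1
    rw [← MonoidHom.mem_ker, QuotientGroup.ker_mk', mem_NP]
    intro i hi
    exact h ⟨i, hi⟩

end KillLAux

open KillLAux

theorem exists_coprime_subgroup {A : Type u} [Group A] (hA : FR A) {ι : Type v} (Γ : ι → Type w)
    [∀ i, Group (Γ i)] (π : ∀ i, A →* Γ i) (hfin : ∀ i, Finite (π i).range)
    (L : Finset ℕ) (hL : ∀ l ∈ L, l.Prime) (b : ℕ)
    (hb : ∀ i, ∀ l ∈ L, ¬ l ^ b ∣ Nat.card (π i).range) :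
    ∃ A1 : Subgroup A, A1.Normal ∧ A1.FiniteIndex ∧
      ∀ i, ∀ l ∈ L, ¬ l ∣ Nat.card (A1.map (π i)) := by
  classical
  have h1 : ∀ l ∈ L, ∃ B : ℕ, ∀ P : Finset ι, (NP π P).index.factorization l ≤ B :=
    fun l hl => val_bound hA Γ π hfin l (hL l hl) b (fun i => hb i l hl)
  choose! B hB using h1
  set φ : Finset ι → ℕ := fun P => ∑ l ∈ L, (NP π P).index.factorization l with hφ
  have hbdd : BddAbove (Set.range φ) := by
    refine ⟨∑ l ∈ L, B l, ?_⟩
    rintro _ ⟨P, rfl⟩
    exact Finset.sum_le_sum fun l hl => hB l hl P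
  obtain ⟨P0, hP0⟩ := Nat.sSup_mem (Set.range_nonempty φ) hbdd
  have hmax : ∀ P, φ P ≤ φ P0 := fun P => by
    rw [hP0]
    exact le_csSup hbdd ⟨P, rfl⟩
  refine ⟨NP π P0, NP_normal π P0, NP_finiteIndex π hfin P0, fun i l hl hdvd => ?_⟩
  have h2 : NP π (insert i P0) ≤ NP π P0 := by
    rw [NP_insert]; exact inf_le_right
  have h3 := Subgroup.relIndex_mul_index h2
  have h4 : (NP π (insert i P0)).relIndex (NP π P0) = Nat.card ((NP π P0).map (π i)) := by
    rw [NP_insert, Subgroup.inf_relIndex_right, Subgroup.relIndex_ker]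
  have h5 : (NP π (insert i P0)).index ≠ 0 := (NP_finiteIndex π hfin (insert i P0)).index_ne_zero
  have h6 : (NP π P0).index ≠ 0 := (NP_finiteIndex π hfin P0).index_ne_zero
  have h7 : (NP π (insert i P0)).relIndex (NP π P0) ≠ 0 := by
    intro h0
    rw [h0, zero_mul] at h3
    exact h5 h3.symm
  have h8 : ∀ m, (NP π (insert i P0)).index.factorization m =
      ((NP π (insert i P0)).relIndex (NP π P0)).factorization m +
        (NP π P0).index.factorization m := by
    intro m
    rw [← h3, Nat.factorization_mul h7 h6, Finsupp.add_apply]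
  have h9 : φ (insert i P0) =
      ∑ m ∈ L, ((NP π (insert i P0)).relIndex (NP π P0)).factorization m + φ P0 := by
    rw [hφ]
    simp only [h8, Finset.sum_add_distrib]
  have h10 := hmax (insert i P0)
  have h11 : ∑ m ∈ L, ((NP π (insert i P0)).relIndex (NP π P0)).factorization m = 0 := by
    omega
  have h12 := (Finset.sum_eq_zero_iff.1 h11) l hl
  rw [← h4] at hdvd
  have h13 := (hL l hl).factorization_pos_of_dvd h7 hdvd
  omega

end P9700a
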