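import Mathlib

/-!
# Specialisation of a finitely generated ring of characteristic zero into finite fields of bounded degree

`S` a finite subset of a field `K` of characteristic zero, `R = Subring.closure S`. There is `D` such that for every `x ∈ R`, `x ≠ 0`, and all sufficiently large primes `p` there is a homomorphism `φ : R →+* AlgebraicClosure (ZMod p)` with `φ x ≠ 0` and values in the field with `p^f` elements (`y^(p^f) = y`) for some `1 ≤ f ≤ D`.

Proof by induction on `S`. `S = ∅`: `R` is the image of `ℤ`; `x = m ≠ 0`, `N = |m|`, `D = 1`, `f = 1`.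
Step: `S' = insert y S`, `R' = R[y]` (every element of `R'` is `P(y)`, `P ∈ R[Y]`).
(1) `y` transcendental over (the fraction field of) `R`: `x = P(y)`, `P ≠ 0` with leading coefficient `a`. Let `N` be as for `a` in `R`, and also `N ≥ deg P`. For `p > N` take `φ` on `R` with `φ a ≠ 0`; `φ(P) ≠ 0` has degree `deg P < p`, so there is `τ` in the image of `ZMod p` with `φ(P)(τ) ≠ 0`; extend `φ` by `y ↦ τ` (`R' ≅ R[Y]`, as the evaluation `R[Y] → R'` is injective).
Same `f`, same `D`.
(2) `y` algebraic over `R`: let `g ∈ R[Y]` be nonzero of minimal degree `d ≥ 1` with `g(y) = 0`, leading coefficient `a`. For every `h ∈ R[Y]` with `h(y) = 0` there are `k` and `q ∈ R[Y]` with `a^k h = g q` (pseudo-division: `a^k h = g q + s`, `deg s < d`, `s(y) = 0`, so `s = 0` by minimality). `x ∈ R'`, `x ≠ 0`: `x` is algebraic over `R` (`R'` is algebraic over `R`), so there are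
`x' ∈ R'`, `b ∈ R`, `b ≠ 0` with `x x' = b` (take a nonzero polynomial over `R` of minimal degree killing `x`; its constant term `b` is nonzero as `x ≠ 0`). Let `N` be as for `a b ∈ R`. For `p > N` take `φ` on `R` with `φ(a b) ≠ 0`, values in the field with `p^f` elements, `f ≤ D`. `φ(g)` has degree `d`, let `τ` be a root in the algebraic closure.
If `h(y) = 0` then `φ(a)^k φ(h)(τ) = 0`, so `φ(h)(τ) = 0`: `φ` extends to `R'` by `P(y) ↦ φ(P)(τ)`. `φ(x) φ(x') = φ(b) ≠ 0`. `τ` has degree `e ≤ d` over the field with `p^f` elements, so `τ` lies in the field with `p^(f e)` elements, and `f' = f * d!` (a multiple of `f e`) satisfies `z^(p^f') = z` for all values `z`. `D' = D * d!`.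
-/

set_option autoImplicit false

namespace P9700a

namespace SpeciAux

open Polynomial

def Sp {K : Type*} [Field K] (R : Subring K) : Prop :=
  ∃ D : ℕ, ∀ x : R, x ≠ 0 → ∃ N : ℕ, ∀ (p : ℕ) [Fact p.Prime], N < p →
      ∃ φ : R →+* AlgebraicClosure (ZMod p), φ x ≠ 0 ∧
        ∃ f : ℕ, 1 ≤ f ∧ f ≤ D ∧ ∀ y, (φ y) ^ (p ^ f) = φ y

theorem exists_lift {K F : Type*} [Field K] [Field F] (R T : Subring K) (y : K)
    (hT : ∀ t : K, t ∈ T ↔ ∃ P : R[X], aeval y P = t)
    (φ : R →+* F) (τ : F) (h : ∀ P : R[X], aeval y P = 0 → eval₂ φ τ P = 0) :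
    ∃ ψ : T →+* F, ∀ (P : R[X]) (t : T), aeval y P = (t : K) → ψ t = eval₂ φ τ P := by
  set e : R[X] →+* T := (aeval y : R[X] →ₐ[R] K).toRingHom.codRestrict T
    (fun P => (hT _).2 ⟨P, rfl⟩) with he
  have he' : ∀ P : R[X], ((e P : T) : K) = aeval y P := fun P => rfl
  have hs : Function.Surjective e := by
    rintro ⟨t, ht⟩
    obtain ⟨P, hP⟩ := (hT t).1 ht
    refine ⟨P, ?_⟩
    apply Subtype.ext
    rw [he']
    exact hP
  have hk : RingHom.ker e ≤ RingHom.ker (eval₂RingHom φ τ) := by
    intro P hP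
    rw [RingHom.mem_ker] at hP ⊢
    have h1 : aeval y P = 0 := by
      rw [← he', hP]
      rfl
    exact h P h1
  refine ⟨RingHom.liftOfSurjective e hs ⟨eval₂RingHom φ τ, hk⟩, ?_⟩
  intro P t hPt
  have ht : t = e P := by
    apply Subtype.ext
    rw [he', hPt]
  rw [ht]
  exact RingHom.liftOfRightInverse_comp_apply e (Function.surjInv hs)
    (Function.rightInverse_surjInv hs) ⟨eval₂RingHom φ τ, hk⟩ P

theorem eval₂_pow {R F : Type*} [CommRing R] [Field F] (p : ℕ) [Fact p.Prime] [CharP F p]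
    (φ : R →+* F) (τ : F) (f : ℕ) (hφ : ∀ c, φ c ^ (p ^ f) = φ c) (hτ : τ ^ (p ^ f) = τ)
    (P : R[X]) : (eval₂ φ τ P) ^ (p ^ f) = eval₂ φ τ P := by
  have h1 : (iterateFrobenius F p f) (eval₂ φ τ P) = eval₂ φ τ P := by
    rw [Polynomial.hom_eval₂]
    have h2 : (iterateFrobenius F p f).comp φ = φ := by
      ext c
      simp [iterateFrobenius_def, hφ]
    rw [h2, iterateFrobenius_def, hτ]
  rwa [iterateFrobenius_def] at h1

theorem pow_pow_mul {F : Type*} [Monoid F] (p f : ℕ) (z : F) (hz : z ^ (p ^ f) = z) (k : ℕ) :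
    z ^ (p ^ (f * k)) = z := by
  induction k with
  | zero => simp
  | succ k ih =>
    rw [Nat.mul_succ, pow_add, pow_mul, ih, hz]

/-- Pseudo-division. -/
theorem pseudo_div {R : Type*} [CommRing R] [IsDomain R] (g : R[X]) (hg : g ≠ 0) (n : ℕ) :
    ∀ h : R[X], h.natDegree ≤ n → ∃ (k : ℕ) (q s : R[X]),
      C (g.leadingCoeff ^ k) * h = g * q + s ∧ s.degree < g.degree := by
  induction n with
  | zero =>
    intro h hh
    by_cases hlt : h.degree < g.degree
    · exact ⟨0, 0, h, by simp, hlt⟩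
    · have hg0 : g.natDegree = 0 := by
        have h1 : g.degree ≤ h.degree := not_lt.1 hlt
        have h2 := natDegree_le_natDegree h1
        omega
      refine ⟨1, h, 0, ?_, ?_⟩
      · have h3 : g = C (g.coeff 0) := eq_C_of_natDegree_eq_zero hg0
        have h4 : g.leadingCoeff = g.coeff 0 := by
          rw [leadingCoeff, hg0]
        rw [pow_one, h4, ← h3, add_zero]
      · rw [degree_zero]
        exact bot_lt_iff_ne_bot.2 (by rwa [Ne, degree_eq_bot])
  | succ n ih =>
    intro h hh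
    by_cases hlt : h.degree < g.degree
    · exact ⟨0, 0, h, by simp, hlt⟩
    · have h1 : g.degree ≤ h.degree := not_lt.1 hlt
      have hh0 : h ≠ 0 := by
        rintro rfl
        rw [degree_zero, le_bot_iff, degree_eq_bot] at h1
        exact hg h1
      have h2 : g.natDegree ≤ h.natDegree := natDegree_le_natDegree h1
      -- reduce
      set u : R[X] := C (g.leadingCoeff) * h - g * (C h.leadingCoeff * X ^ (h.natDegree - g.natDegree)) with hu
      have hu1 : u.natDegree ≤ n ∨ u = 0 := by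
        by_cases hu0 : u = 0
        · exact Or.inr hu0
        left
        have hA : (C (g.leadingCoeff) * h).degree = h.degree := by
          rw [degree_mul, degree_C (leadingCoeff_ne_zero.2 hg), zero_add]
        have hB : (g * (C h.leadingCoeff * X ^ (h.natDegree - g.natDegree))).degree = h.degree := by
          rw [degree_mul, degree_mul, degree_C (leadingCoeff_ne_zero.2 hh0), zero_add, degree_X_pow,
            degree_eq_natDegree hg, degree_eq_natDegree hh0]
          exact_mod_cast (by omega : g.natDegree + (h.natDegree - g.natDegree) = h.natDegree)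
        have hC : u.degree < (C (g.leadingCoeff) * h).degree := by
          apply degree_sub_lt_left
          · rw [hA, hB]
          · exact mul_ne_zero (by simpa using hg) hh0
          · rw [leadingCoeff_mul, leadingCoeff_mul, leadingCoeff_mul, leadingCoeff_C, leadingCoeff_C,
              leadingCoeff_X_pow, mul_one]
        rw [hA] at hC
        have hD := natDegree_lt_natDegree hu0 hC
        omega
      have hu2 : ∃ (k : ℕ) (q s : R[X]),
          C (g.leadingCoeff ^ k) * u = g * q + s ∧ s.degree < g.degree := by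
        rcases hu1 with h3 | h3
        · exact ih u h3
        · refine ⟨0, 0, 0, by simp [h3], ?_⟩
          rw [degree_zero]
          exact bot_lt_iff_ne_bot.2 (by rwa [Ne, degree_eq_bot])
      obtain ⟨k, q, s, hkq, hs⟩ := hu2
      refine ⟨k + 1, q + C (g.leadingCoeff ^ k) * (C h.leadingCoeff * X ^ (h.natDegree - g.natDegree)), s, ?_, hs⟩
      have h5 : C (g.leadingCoeff) * h = u + g * (C h.leadingCoeff * X ^ (h.natDegree - g.natDegree)) := by
        rw [hu]; ring
      rw [pow_succ, C_mul, mul_assoc, h5, mul_add, hkq]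
      ring

theorem root_period {F : Type*} [Field F] (p : ℕ) [Fact p.Prime] [CharP F p] (f : ℕ)
    (G : F[X]) (hG : G ≠ 0) (hGf : G.map (iterateFrobenius F p f) = G) (τ : F)
    (hτ : G.IsRoot τ) (d : ℕ) (hd : G.natDegree ≤ d) :
    τ ^ (p ^ (f * d.factorial)) = τ := by
  classical
  set Φ : F →+* F := iterateFrobenius F p f with hΦ
  have hΦi : Function.Injective Φ := Φ.injective
  have hst : ∀ z : F, G.IsRoot z → G.IsRoot (Φ z) := by
    intro z hz
    have h1 : eval (Φ z) (G.map Φ) = Φ (eval z G) := by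
      rw [eval_map, eval₂_hom]
    rw [IsRoot.def] at hz ⊢
    rw [hGf, hz, map_zero] at h1
    exact h1
  -- finite set of roots
  let Z := {z : F // z ∈ G.roots.toFinset}
  let g : Z → Z := fun z => ⟨Φ z.1, by
    have h2 := z.2
    rw [Multiset.mem_toFinset, mem_roots hG] at h2 ⊢
    exact hst _ h2⟩
  have hgi : Function.Injective g := by
    intro a b hab
    apply Subtype.ext
    exact hΦi (congrArg Subtype.val hab)
  have hgb : Function.Bijective g := Finite.injective_iff_bijective.1 hgi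
  let σ : Equiv.Perm Z := Equiv.ofBijective g hgb
  have hcard : Fintype.card Z ≤ d := by
    have h3 : Fintype.card Z = G.roots.toFinset.card := Fintype.card_coe _
    rw [h3]
    exact (Multiset.toFinset_card_le _).trans ((card_roots' G).trans hd)
  have hσ : σ ^ d.factorial = 1 := by
    have h4 : σ ^ Fintype.card (Equiv.Perm Z) = 1 := pow_card_eq_one
    rw [Fintype.card_perm] at h4
    obtain ⟨c, hc⟩ := Nat.factorial_dvd_factorial hcard
    rw [hc, pow_mul, h4, one_pow]
  have hit : ∀ (n : ℕ) (z : Z), ((σ ^ n) z).1 = z.1 ^ (p ^ (f * n)) := by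
    intro n
    induction n with
    | zero => intro z; simp
    | succ n ih =>
      intro z
      rw [pow_succ', Equiv.Perm.mul_apply]
      have h5 : (σ ((σ ^ n) z)).1 = Φ ((σ ^ n) z).1 := rfl
      rw [h5, ih, hΦ, iterateFrobenius_def, Nat.mul_succ, pow_add, ← pow_mul]
  have hτ' : τ ∈ G.roots.toFinset := by
    rw [Multiset.mem_toFinset, mem_roots hG]
    exact hτ
  have h6 := hit d.factorial ⟨τ, hτ'⟩
  rw [hσ] at h6
  exact h6.symm

theorem iter_one {F : Type*} [Field F] (p : ℕ) [Fact p.Prime] [CharP F p] {R : Type*} [CommRing R]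
    (φ : R →+* F) (f : ℕ) (hφ : ∀ c, φ c ^ (p ^ f) = φ c) (g : R[X]) :
    (g.map φ).map (iterateFrobenius F p f) = g.map φ := by
  rw [Polynomial.map_map]
  congr 1
  ext c
  simp [iterateFrobenius_def, hφ]

theorem step_trans {K : Type*} [Field K] (R T : Subring K) (y : K)
    (hT : ∀ t : K, t ∈ T ↔ ∃ P : R[X], aeval y P = t) (hR : Sp R)
    (hy : Transcendental R y) : Sp T := by
  obtain ⟨D, hD⟩ := hR
  refine ⟨D, ?_⟩
  intro x hx
  obtain ⟨P, hP⟩ := (hT x).1 x.2
  have hP0 : P ≠ 0 := by
    rintro rfl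
    rw [map_zero] at hP
    exact hx (Subtype.ext hP.symm)
  have ha : P.leadingCoeff ≠ 0 := leadingCoeff_ne_zero.2 hP0
  obtain ⟨N, hN⟩ := hD P.leadingCoeff ha
  refine ⟨max N P.natDegree, ?_⟩
  intro p _ hp
  obtain ⟨φ, hφa, f, hf1, hfD, hφ⟩ := hN p (lt_of_le_of_lt (le_max_left _ _) hp)
  have : CharP (AlgebraicClosure (ZMod p)) p := inferInstance
  have hpd : P.natDegree < p := lt_of_le_of_lt (le_max_right _ _) hp
  have hmap : P.map φ ≠ 0 := by
    intro h0
    have h1 : (P.map φ).coeff P.natDegree = 0 := by rw [h0, coeff_zero]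
    rw [coeff_map] at h1
    exact hφa h1
  -- choose τ
  have hτ : ∃ c : ZMod p, eval (algebraMap (ZMod p) (AlgebraicClosure (ZMod p)) c) (P.map φ) ≠ 0 := by
    by_contra hcon
    push Not at hcon
    apply hmap
    apply eq_zero_of_natDegree_lt_card_of_eval_eq_zero (P.map φ)
      (f := fun c : ZMod p => algebraMap (ZMod p) (AlgebraicClosure (ZMod p)) c)
    · exact (algebraMap (ZMod p) (AlgebraicClosure (ZMod p))).injective
    · exact hcon
    · rw [ZMod.card]
      exact lt_of_le_of_lt natDegree_map_le hpd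
  obtain ⟨c, hc⟩ := hτ
  set τ := algebraMap (ZMod p) (AlgebraicClosure (ZMod p)) c with hτdef
  have hτf : τ ^ (p ^ f) = τ := by
    rw [hτdef, ← map_pow, ZMod.pow_card_pow]
  obtain ⟨ψ, hψ⟩ := exists_lift R T y hT φ τ (by
    intro Q hQ
    have : Q = 0 := (transcendental_iff.1 hy) Q hQ
    rw [this, eval₂_zero])
  refine ⟨ψ, ?_, f, hf1, hfD, ?_⟩
  · rw [hψ P x hP]
    rwa [eval_map] at hc
  · intro t
    obtain ⟨Q, hQ⟩ := (hT t).1 t.2
    rw [hψ Q t hQ]
    exact eval₂_pow p φ τ f hφ hτf Q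

theorem step_alg {K : Type*} [Field K] (R T : Subring K) (y : K)
    (hT : ∀ t : K, t ∈ T ↔ ∃ P : R[X], aeval y P = t) (hR : Sp R)
    (hy : IsAlgebraic R y) : Sp T := by
  classical
  obtain ⟨D, hD⟩ := hR
  -- minimal polynomial
  have hex : ∃ n : ℕ, ∃ g : R[X], g ≠ 0 ∧ aeval y g = 0 ∧ g.natDegree = n := by
    obtain ⟨g, hg0, hg⟩ := hy
    exact ⟨_, g, hg0, hg, rfl⟩
  obtain ⟨g, hg0, hgy, hgd⟩ := Nat.find_spec hex
  have hmin : ∀ h : R[X], h ≠ 0 → aeval y h = 0 → g.natDegree ≤ h.natDegree := by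
    intro h hh0 hh
    rw [hgd]
    exact Nat.find_min' hex ⟨h, hh0, hh, rfl⟩
  set d := g.natDegree with hd
  have hdpos : d ≠ 0 := by
    intro h0
    have h1 : g = C (g.coeff 0) := eq_C_of_natDegree_eq_zero h0
    rw [h1, aeval_C] at hgy
    have h2 : (g.coeff 0 : R) = 0 := Subtype.ext hgy
    rw [h2, C_0] at h1
    exact hg0 h1
  have ha : g.leadingCoeff ≠ 0 := leadingCoeff_ne_zero.2 hg0
  refine ⟨D * d.factorial, ?_⟩
  intro x hx
  -- x is algebraic
  have hxalg : IsAlgebraic R (x : K) := by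
    obtain ⟨P, hP⟩ := (hT x).1 x.2
    rw [← hP]
    exact Algebra.isAlgebraic_adjoin_singleton_iff.2 hy _ (aeval_mem_adjoin_singleton _ _)
  have hxK : (x : K) ≠ 0 := fun h => hx (Subtype.ext h)
  obtain ⟨x', hx', b, hb, hxx'⟩ := hxalg.exists_nonzero_eq_adjoin_mul
    (mem_nonZeroDivisors_of_ne_zero hxK)
  have hx'T : x' ∈ T := by
    obtain ⟨P, hP⟩ := Algebra.adjoin_mem_exists_aeval _ _ hx'
    obtain ⟨Q, hQ⟩ := (hT x).1 x.2
    refine (hT x').2 ⟨P.comp Q, ?_⟩
    rw [aeval_comp, hQ, hP]
  obtain ⟨N, hN⟩ := hD (g.leadingCoeff * b) (mul_ne_zero ha hb)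
  refine ⟨N, ?_⟩
  intro p _ hp
  obtain ⟨φ, hφab, f, hf1, hfD, hφ⟩ := hN p hp
  have : CharP (AlgebraicClosure (ZMod p)) p := inferInstance
  rw [map_mul] at hφab
  have hφa : φ g.leadingCoeff ≠ 0 := left_ne_zero_of_mul hφab
  have hφb : φ b ≠ 0 := right_ne_zero_of_mul hφab
  have hGd : (g.map φ).natDegree = d := natDegree_map_of_leadingCoeff_ne_zero φ hφa
  have hG0 : g.map φ ≠ 0 := by
    intro h0
    rw [h0, natDegree_zero] at hGd
    exact hdpos hGd.symm
  obtain ⟨τ, hτ⟩ := IsAlgClosed.exists_root (g.map φ) (by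
    rw [degree_eq_natDegree hG0, hGd]
    exact_mod_cast hdpos)
  have hτf : τ ^ (p ^ (f * d.factorial)) = τ :=
    root_period p f (g.map φ) hG0 (iter_one p φ f hφ g) τ hτ d hGd.le
  have hφf : ∀ c, φ c ^ (p ^ (f * d.factorial)) = φ c := fun c =>
    pow_pow_mul p f (φ c) (hφ c) _
  obtain ⟨ψ, hψ⟩ := exists_lift R T y hT φ τ (by
    intro Q hQ
    obtain ⟨k, q, s, hkq, hs⟩ := pseudo_div g hg0 Q.natDegree Q le_rfl
    have hs0 : s = 0 := by
      by_contra hs0
      have h1 : aeval y s = 0 := by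
        have h2 := congrArg (aeval y) hkq
        rw [map_mul, map_add, map_mul, hQ, hgy, mul_zero, zero_mul, zero_add] at h2
        exact h2.symm
      have h3 := hmin s hs0 h1
      have h4 := natDegree_lt_natDegree hs0 hs
      omega
    rw [hs0, add_zero] at hkq
    have h5 := congrArg (eval₂ φ τ) hkq
    rw [eval₂_mul, eval₂_mul, eval₂_C, map_pow] at h5
    have h6 : eval₂ φ τ g = 0 := by
      rw [← eval_map]
      exact hτ
    rw [h6, zero_mul] at h5
    exact (mul_eq_zero.1 h5).resolve_left (pow_ne_zero _ hφa))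
  refine ⟨ψ, ?_, f * d.factorial, ?_, ?_, ?_⟩
  · intro h0
    apply hφb
    have h1 : (x * ⟨x', hx'T⟩ : T) = ⟨(b : K), (hT _).2 ⟨C b, aeval_C y b⟩⟩ := by
      apply Subtype.ext
      exact hxx'
    have h2 := congrArg ψ h1
    have h3 : ψ ⟨(b : K), (hT _).2 ⟨C b, aeval_C y b⟩⟩ = eval₂ φ τ (C b) :=
      hψ (C b) _ (aeval_C y b)
    rw [map_mul, h0, zero_mul, h3, eval₂_C] at h2
    exact h2.symm
  · exact Nat.mul_pos hf1 (Nat.factorial_pos _)
  · exact Nat.mul_le_mul_right _ hfD
  · intro t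
    obtain ⟨Q, hQ⟩ := (hT t).1 t.2
    rw [hψ Q t hQ]
    exact eval₂_pow p φ τ _ hφf hτf Q

theorem sp_bot {K : Type*} [Field K] [CharZero K] : Sp (⊥ : Subring K) := by
  refine ⟨1, ?_⟩
  intro x hx
  obtain ⟨m, hm⟩ := Subring.mem_bot.1 x.2
  have hm0 : m ≠ 0 := by
    rintro rfl
    rw [Int.cast_zero] at hm
    exact hx (Subtype.ext hm.symm)
  refine ⟨m.natAbs, ?_⟩
  intro p _ hp
  have : CharP (AlgebraicClosure (ZMod p)) p := inferInstance
  -- the isomorphism
  have hinj : Function.Injective (Int.castRingHom K) := Int.cast_injective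
  set e : ℤ →+* (⊥ : Subring K) := (Int.castRingHom K).codRestrict ⊥
    (fun n => Subring.mem_bot.2 ⟨n, rfl⟩) with he
  have he' : ∀ n : ℤ, ((e n : (⊥ : Subring K)) : K) = n := fun n => rfl
  have hb : Function.Bijective e := by
    constructor
    · intro a b hab
      have h1 := congrArg (Subtype.val) hab
      rw [he', he'] at h1
      exact_mod_cast h1
    · rintro ⟨t, ht⟩
      obtain ⟨n, hn⟩ := Subring.mem_bot.1 ht
      exact ⟨n, Subtype.ext hn⟩
  set E : ℤ ≃+* (⊥ : Subring K) := RingEquiv.ofBijective e hb with hE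
  refine ⟨(Int.castRingHom (AlgebraicClosure (ZMod p))).comp E.symm.toRingHom, ?_, 1, le_rfl, le_rfl, ?_⟩
  · have h1 : E.symm x = m := by
      rw [RingEquiv.symm_apply_eq]
      apply Subtype.ext
      exact hm.symm
    have h2 : ((Int.castRingHom (AlgebraicClosure (ZMod p))).comp E.symm.toRingHom) x
        = ((m : ℤ) : AlgebraicClosure (ZMod p)) := by
      rw [RingHom.comp_apply]
      change ((E.symm x : ℤ) : AlgebraicClosure (ZMod p)) = _
      rw [h1]
    rw [h2]
    intro h3
    rw [CharP.intCast_eq_zero_iff _ p] at h3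
    have h4 := Int.natCast_dvd.1 h3
    have h5 := Nat.le_of_dvd (Int.natAbs_pos.2 hm0) h4
    omega
  · intro y
    rw [pow_one]
    change ((E.symm y : ℤ) : AlgebraicClosure (ZMod p)) ^ p = ((E.symm y : ℤ) : AlgebraicClosure (ZMod p))
    have h6 : ∀ n : ℤ, (n : AlgebraicClosure (ZMod p)) ^ p = n := by
      intro n
      have h7 : (n : AlgebraicClosure (ZMod p)) = algebraMap (ZMod p) _ (n : ZMod p) := by
        rw [map_intCast]
      rw [h7, ← map_pow, ZMod.pow_card]
    exact h6 _

theorem closure_insert_iff {K : Type*} [Field K] (S : Set K) (y : K) (t : K) :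
    t ∈ Subring.closure (insert y S) ↔ ∃ P : (Subring.closure S)[X], aeval y P = t := by
  constructor
  · intro ht
    induction ht using Subring.closure_induction with
    | mem x hx =>
      rcases hx with rfl | hx
      · exact ⟨X, aeval_X _⟩
      · exact ⟨C ⟨x, Subring.subset_closure hx⟩, aeval_C _ _⟩
    | zero => exact ⟨0, map_zero _⟩
    | one => exact ⟨1, map_one _⟩
    | add a b _ _ ha hb =>
      obtain ⟨P, rfl⟩ := ha
      obtain ⟨Q, rfl⟩ := hb
      exact ⟨P + Q, map_add _ _ _⟩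
    | neg a _ ha =>
      obtain ⟨P, rfl⟩ := ha
      exact ⟨-P, map_neg _ _⟩
    | mul a b _ _ ha hb =>
      obtain ⟨P, rfl⟩ := ha
      obtain ⟨Q, rfl⟩ := hb
      exact ⟨P * Q, map_mul _ _ _⟩
  · rintro ⟨P, rfl⟩
    induction P using Polynomial.induction_on' with
    | add P Q hP hQ =>
      rw [map_add]
      exact Subring.add_mem _ hP hQ
    | monomial n a =>
      rw [aeval_monomial]
      apply Subring.mul_mem
      · exact Subring.closure_mono (Set.subset_insert _ _) a.2
      · exact Subring.pow_mem _ (Subring.subset_closure (Set.mem_insert _ _)) _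

theorem sp_all {K : Type*} [Field K] [CharZero K] (S : Finset K) :
    Sp (Subring.closure (S : Set K)) := by
  classical
  induction S using Finset.induction_on with
  | empty =>
    rw [Finset.coe_empty, Subring.closure_empty]
    exact sp_bot
  | insert y S _ ih =>
    rw [Finset.coe_insert]
    by_cases hy : IsAlgebraic (Subring.closure (S : Set K)) y
    · exact step_alg _ _ y (closure_insert_iff _ y) ih hy
    · exact step_trans _ _ y (closure_insert_iff _ y) ih hy

end SpeciAux

theorem exists_specialization {K : Type*} [Field K] [CharZero K] (S : Finset K) :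
    ∃ D : ℕ, ∀ x : Subring.closure (S : Set K), x ≠ 0 → ∃ N : ℕ, ∀ (p : ℕ) [Fact p.Prime], N < p →
      ∃ φ : Subring.closure (S : Set K) →+* AlgebraicClosure (ZMod p), φ x ≠ 0 ∧
        ∃ f : ℕ, 1 ≤ f ∧ f ≤ D ∧ ∀ y, (φ y) ^ (p ^ f) = φ y := by
  exact SpeciAux.sp_all S

end P9700a
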