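import Mathlib
import Pool.Agent.Lib.P9700a.Defs
import Pool.Agent.Lib.P9700a.Rank
import Pool.Agent.Lib.P9700c.KillL
import Pool.Agent.Lib.P9700c.BurnsLin
import Pool.Agent.Lib.P9700c.GLBound
import Pool.Agent.Lib.P9700c.Speci

/-!
# Finitely generated linear groups of finite special rank, characteristic zero

Proof. `S` = the finite set of all entries of `ρ g` and `ρ g⁻¹`, `g` in a finite generating set of `A`; `R = Subring.closure S`; all `ρ a`, `a ∈ A`, have entries in `R`, so `ρ` comes from `ρR : A →* GL_n(R)` (`Matrix.GeneralLinearGroup (Fin n) R`). `D` from `exists_specialization S`, `b` from `exists_good_prime n D`.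
Index set `ι`: pairs `(p, φ)`, `p` a prime with `∀ f, 1 ≤ f → f ≤ D → ∀ l prime, l ≤ n → ¬ l^b ∣ ∏ i ∈ range n, ((p^f)^n - (p^f)^i)`, `p > n`, and `φ : R →+* AlgebraicClosure (ZMod p)` such that for some `1 ≤ f ≤ D` all values satisfy `z^(p^f) = z`. `π (p, φ) : A →* GL_n(AlgebraicClosure (ZMod p))` is `ρR` followed by `Matrix.GeneralLinearGroup.map φ`.
By `gl_card_dvd` the image is finite and its order divides the product, so `l^b` does not divide it for primes `l ≤ n`. `exists_coprime_subgroup` with `L` = the primes `≤ n` gives `A1` (normal, finite index) such that the orders of all `H = A1.map (π i)` are prime to all primes `≤ n`, i.e. all prime divisors are `> n = dim (Fin n → k)`. `commutator_unipotent` for `H` acting on `Fin n → k`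
(`k = AlgebraicClosure (ZMod p)`; via `Matrix.toLin'` / `Matrix.toLinAlgEquiv'`): for `z ∈ ⁅A1, A1⁆`, `π i z` is in the image of `commutator H`, so `π i z - 1` is a nilpotent `n × n` matrix, `(π i z - 1)^n = 0`, i.e. `φ` kills all entries of `(ρR z - 1)^n`. If an entry `x` of `(ρR z - 1)^n` were nonzero, `exists_specialization` gives `N`, `exists_good_prime` a good prime
`p > max N n`, and a `φ` with `φ x ≠ 0`, `(p, φ) ∈ ι`: contradiction. So `(ρ z - 1)^n = 0`.
-/

set_option autoImplicit false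

namespace P9700a

namespace PlatFGAux

/-- a nilpotent endomorphism of `Fin n → k` has `n`-th power zero -/
theorem pow_eq_zero {k : Type*} [Field k] {n : ℕ} (M : Matrix (Fin n) (Fin n) k)
    (h : IsNilpotent (Matrix.toLinAlgEquiv' M)) : M ^ n = 0 := by
  have h1 := LinearMap.aeval_self_charpoly (Matrix.toLinAlgEquiv' M)
  rw [IsNilpotent.charpoly_eq_X_pow_finrank h] at h1
  rw [Module.finrank_fin_fun, map_pow, Polynomial.aeval_X, ← map_pow] at h1
  exact (map_eq_zero_iff _ (Matrix.toLinAlgEquiv' (R := k) (n := Fin n)).injective).1 h1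

/-- entries of the image lie in the ring generated by the entries of the generators -/
theorem entries_mem {K A : Type*} [Field K] {n : ℕ} [Group A]
    (ρ : A →* Matrix.GeneralLinearGroup (Fin n) K) (R : Subring K) (S0 : Set A)
    (hS : Subgroup.closure S0 = ⊤)
    (h : ∀ g ∈ S0, ∀ i j, (ρ g : Matrix (Fin n) (Fin n) K) i j ∈ R ∧
      (ρ g⁻¹ : Matrix (Fin n) (Fin n) K) i j ∈ R) (a : A) :
    ∀ i j, (ρ a : Matrix (Fin n) (Fin n) K) i j ∈ R := by
  have key : ∀ a ∈ Subgroup.closure S0, ∀ i j, (ρ a : Matrix (Fin n) (Fin n) K) i j ∈ R ∧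
      (ρ a⁻¹ : Matrix (Fin n) (Fin n) K) i j ∈ R := by
    intro a ha
    induction ha using Subgroup.closure_induction with
    | mem x hx => exact h x hx
    | one =>
      intro i j
      rw [inv_one, map_one, Units.val_one, Matrix.one_apply]
      split_ifs
      · exact ⟨R.one_mem, R.one_mem⟩
      · exact ⟨R.zero_mem, R.zero_mem⟩
    | mul x y _ _ hx hy =>
      intro i j
      rw [mul_inv_rev, map_mul, map_mul, Units.val_mul, Units.val_mul, Matrix.mul_apply,
        Matrix.mul_apply]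
      exact ⟨R.sum_mem fun l _ => R.mul_mem (hx i l).1 (hy l j).1,
        R.sum_mem fun l _ => R.mul_mem (hy i l).2 (hx l j).2⟩
    | inv x _ hx =>
      intro i j
      rw [inv_inv]
      exact ⟨(hx i j).2, (hx i j).1⟩
  exact fun i j => (key a (hS ▸ Subgroup.mem_top a) i j).1

/-- the representation over the subring -/
def repR {K A : Type*} [Field K] {n : ℕ} [Group A]
    (ρ : A →* Matrix.GeneralLinearGroup (Fin n) K) (R : Subring K)
    (h : ∀ a i j, (ρ a : Matrix (Fin n) (Fin n) K) i j ∈ R) :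
    A →* Matrix (Fin n) (Fin n) R where
  toFun a := Matrix.of fun i j => ⟨(ρ a : Matrix (Fin n) (Fin n) K) i j, h a i j⟩
  map_one' := by
    ext i j
    rw [Matrix.of_apply]
    simp only [map_one, Units.val_one, Matrix.one_apply]
    split_ifs <;> rfl
  map_mul' a b := by
    ext i j
    rw [Matrix.of_apply, Matrix.mul_apply]
    simp only [map_mul, Units.val_mul, Matrix.mul_apply, Matrix.of_apply]
    rw [AddSubmonoidClass.coe_finsetSum]
    rfl

theorem repR_apply {K A : Type*} [Field K] {n : ℕ} [Group A]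
    (ρ : A →* Matrix.GeneralLinearGroup (Fin n) K) (R : Subring K)
    (h : ∀ a i j, (ρ a : Matrix (Fin n) (Fin n) K) i j ∈ R) (a : A) (i j : Fin n) :
    ((repR ρ R h a i j : R) : K) = (ρ a : Matrix (Fin n) (Fin n) K) i j := rfl

/-- the reduction along `φ` -/
def red {K A : Type*} [Field K] {n : ℕ} [Group A]
    (ρ : A →* Matrix.GeneralLinearGroup (Fin n) K) (R : Subring K)
    (h : ∀ a i j, (ρ a : Matrix (Fin n) (Fin n) K) i j ∈ R) {k : Type*} [Field k]
    (φ : R →+* k) : A →* Matrix.GeneralLinearGroup (Fin n) k :=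
  MonoidHom.toHomUnits (((RingHom.mapMatrix φ : Matrix (Fin n) (Fin n) R →+* _) :
    Matrix (Fin n) (Fin n) R →* Matrix (Fin n) (Fin n) k).comp (repR ρ R h))

theorem red_apply {K A : Type*} [Field K] {n : ℕ} [Group A]
    (ρ : A →* Matrix.GeneralLinearGroup (Fin n) K) (R : Subring K)
    (h : ∀ a i j, (ρ a : Matrix (Fin n) (Fin n) K) i j ∈ R) {k : Type*} [Field k]
    (φ : R →+* k) (a : A) :
    (red ρ R h φ a : Matrix (Fin n) (Fin n) k) = φ.mapMatrix (repR ρ R h a) := rfl

/-- the primes used -/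
def Good (n D b : ℕ) (p : ℕ) : Prop :=
  p.Prime ∧ n < p ∧ ∀ f : ℕ, 1 ≤ f → f ≤ D → ∀ l : ℕ, l.Prime → l ≤ n →
      ¬ l ^ b ∣ ∏ i ∈ Finset.range n, ((p ^ f) ^ n - (p ^ f) ^ i)

/-- for one reduction: the image of the commutator subgroup is unipotent -/
theorem unip_of_coprime {A : Type*} [Group A] {k : Type*} [Field k] [IsAlgClosed k] {n : ℕ}
    (π : A →* Matrix.GeneralLinearGroup (Fin n) k) (A1 : Subgroup A) (hfin : Finite (A1.map π))
    (hcop : ∀ l ∈ (Finset.range (n + 1)).filter Nat.Prime, ¬ l ∣ Nat.card (A1.map π)) (z : A)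
    (hz : z ∈ ⁅A1, A1⁆) : ((π z : Matrix (Fin n) (Fin n) k) - 1) ^ n = 0 := by
  let σ : A1.map π →* Module.End k (Fin n → k) :=
    ((Matrix.toLinAlgEquiv' (R := k) (n := Fin n) : Matrix (Fin n) (Fin n) k →*
      Module.End k (Fin n → k)).comp (Units.coeHom _)).comp (A1.map π).subtype
  have hσ : Function.Injective σ := by
    intro x y hxy
    apply Subtype.ext
    apply Units.ext
    exact (Matrix.toLinAlgEquiv' (R := k) (n := Fin n)).injective hxy
  have h1 := commutator_unipotent σ hσ (by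
    intro l hl hdvd
    rw [Module.finrank_fin_fun]
    by_contra hle
    exact hcop l (Finset.mem_filter.2 ⟨Finset.mem_range.2 (by omega), hl⟩) hdvd)
  rw [← Subgroup.map_subtype_commutator] at hz
  obtain ⟨z', hz', rfl⟩ := hz
  let F : A1 →* A1.map π := π.subgroupMap A1
  have h2 : F z' ∈ commutator (A1.map π) := by
    have h3 : (commutator A1).map F ≤ commutator (A1.map π) := by
      rw [commutator_def, commutator_def, Subgroup.map_commutator]
      exact Subgroup.commutator_mono le_top le_top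
    exact h3 ⟨z', hz', rfl⟩
  have h4 := h1 _ h2
  apply pow_eq_zero
  rw [map_sub, map_one]
  exact h4

end PlatFGAux

open PlatFGAux in
theorem platonov_fg {K A : Type*} [Field K] [CharZero K] {n : ℕ} [Group A] [Group.FG A]
    (hA : FR A) (ρ : A →* Matrix.GeneralLinearGroup (Fin n) K) :
    ∃ A1 : Subgroup A, A1.Normal ∧ A1.FiniteIndex ∧
      ∀ z ∈ ⁅A1, A1⁆, IsNilpotent ((ρ z : Matrix (Fin n) (Fin n) K) - 1) := by
  classical
  obtain ⟨S0, hS0⟩ := (Group.fg_def.1 (inferInstance : Group.FG A) : (⊤ : Subgroup A).FG)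
  let S : Finset K :=
    ((S0 ×ˢ (Finset.univ : Finset (Fin n × Fin n))).image
        (fun t => (ρ t.1 : Matrix (Fin n) (Fin n) K) t.2.1 t.2.2)) ∪
      ((S0 ×ˢ (Finset.univ : Finset (Fin n × Fin n))).image
        (fun t => (ρ t.1⁻¹ : Matrix (Fin n) (Fin n) K) t.2.1 t.2.2))
  set R : Subring K := Subring.closure (S : Set K) with hR
  have hent : ∀ a i j, (ρ a : Matrix (Fin n) (Fin n) K) i j ∈ R := by
    apply entries_mem ρ R (S0 : Set A) hS0
    intro g hg i j
    constructor
    · apply Subring.subset_closure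
      exact Finset.mem_coe.2 (Finset.mem_union_left _ (Finset.mem_image.2
        ⟨(g, i, j), Finset.mem_product.2 ⟨hg, Finset.mem_univ _⟩, rfl⟩))
    · apply Subring.subset_closure
      exact Finset.mem_coe.2 (Finset.mem_union_right _ (Finset.mem_image.2
        ⟨(g, i, j), Finset.mem_product.2 ⟨hg, Finset.mem_univ _⟩, rfl⟩))
  obtain ⟨D, hD⟩ := exists_specialization S
  obtain ⟨b, hb⟩ := exists_good_prime n D
  have inst : ∀ p : {p : ℕ // Good n D b p}, Fact (p.1).Prime := fun p => ⟨p.2.1⟩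
  let ι := Σ p : {p : ℕ // Good n D b p}, {φ : R →+* AlgebraicClosure (ZMod p.1) //
    ∃ f : ℕ, 1 ≤ f ∧ f ≤ D ∧ ∀ y, (φ y) ^ (p.1 ^ f) = φ y}
  let Γ : ι → Type := fun i => Matrix.GeneralLinearGroup (Fin n) (AlgebraicClosure (ZMod i.1.1))
  let π : ∀ i : ι, A →* Γ i := fun i => red ρ R hent i.2.1
  have hcard : ∀ i : ι, ∃ f : ℕ, 1 ≤ f ∧ f ≤ D ∧ Finite (π i).range ∧
      Nat.card (π i).range ∣ ∏ j ∈ Finset.range n, ((i.1.1 ^ f) ^ n - (i.1.1 ^ f) ^ j) := by
    intro i
    obtain ⟨f, hf1, hf2, hf3⟩ := i.2.2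
    refine ⟨f, hf1, hf2, gl_card_dvd f n hf1 (π i).range ?_⟩
    rintro _ ⟨a, rfl⟩ r s
    exact hf3 _
  obtain ⟨A1, hA1, hA2, hA3⟩ := exists_coprime_subgroup hA Γ π
    (fun i => (hcard i).choose_spec.2.2.1) ((Finset.range (n + 1)).filter Nat.Prime)
    (fun l hl => (Finset.mem_filter.1 hl).2) b (by
      intro i l hl hdvd
      obtain ⟨f, hf1, hf2, -, hf4⟩ := hcard i
      rw [Finset.mem_filter, Finset.mem_range] at hl
      exact i.1.2.2.2 f hf1 hf2 l hl.2 (by omega) (hdvd.trans hf4))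
  refine ⟨A1, hA1, hA2, fun z hz => ⟨n, ?_⟩⟩
  have key : (repR ρ R hent z - 1) ^ n = 0 := by
    by_contra hne
    obtain ⟨r, s, hrs⟩ : ∃ r s, ((repR ρ R hent z - 1) ^ n) r s ≠ 0 := by
      by_contra hcon
      push Not at hcon
      exact hne (Matrix.ext hcon)
    obtain ⟨N, hN⟩ := hD _ hrs
    obtain ⟨p, hp1, hp2, hp3⟩ := hb (max N n)
    have : Fact p.Prime := ⟨hp2⟩
    obtain ⟨φ, hφ1, hφ2⟩ := hN p (lt_of_le_of_lt (le_max_left _ _) hp1)
    have hg : Good n D b p := ⟨hp2, lt_of_le_of_lt (le_max_right _ _) hp1, hp3⟩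
    let i : ι := ⟨⟨p, hg⟩, ⟨φ, hφ2⟩⟩
    have := (hcard i).choose_spec.2.2.1
    have hfin : Finite (A1.map (π i)) :=
      Finite.of_injective (Subgroup.inclusion (Subgroup.map_le_range (π i) A1))
        (Subgroup.inclusion_injective _)
    have h1 := unip_of_coprime (π i) A1 hfin (hA3 i) z hz
    apply hφ1
    have h2 : ((π i z : Matrix (Fin n) (Fin n) (AlgebraicClosure (ZMod p))) - 1) ^ n =
        φ.mapMatrix ((repR ρ R hent z - 1) ^ n) := by
      rw [map_pow, map_sub, map_one]
      rfl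
    have h3 := h2.symm.trans h1
    have h4 := congrFun (congrFun h3 r) s
    exact h4
  have h5 : ((ρ z : Matrix (Fin n) (Fin n) K) - 1) ^ n =
      R.subtype.mapMatrix ((repR ρ R hent z - 1) ^ n) := by
    rw [map_pow, map_sub, map_one]
    rfl
  rw [h5, key, map_zero]

end P9700a
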