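import Mathlib
import Pool.Agent.Lib.P9700a.Defs
import Pool.Agent.Lib.P9700a.Rank
import Pool.Agent.Lib.P9700b.VDefs
import Pool.Agent.Lib.P9700c.PlatFG
import Pool.Agent.Lib.P9700c.Kolch

/-!
# Strongly irreducible groups of finite rank are locally virtually commutative

Proof. `End K V` is finite-dimensional, so there is a finite subset `F` of `A` such that the span of `ρ '' F` is the span of all `ρ a`; `C0 = Subgroup.closure F`. `C' = C ⊔ C0` is f.g. and irreducible: a `C'`-invariant subspace is invariant under the span, so under `A`, so `⊥` or `⊤` (`SIrr ρ` with `H1 = ⊤`).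
`platonov_fg` for the group `C'` (`FR.subgroup`, f.g.) and the matrix representation `C' →* GL_n(K)` obtained from `ρ` and a basis of `V` (`MonoidHom.toHomUnits`, `LinearMap.toMatrixAlgEquiv`, `n = finrank K V`): `A1` normal of finite index in `C'`, all `ρ z - 1`, `z ∈ ⁅A1, A1⁆`, nilpotent. `kolchin` for `C'` and its normal subgroup `⁅A1, A1⁆`: `ρ z = 1`
for `z ∈ ⁅A1, A1⁆`, so `ρ x * ρ y = ρ y * ρ x` for `x, y ∈ A1`. `D = (A1.map C'.subtype) ⊓ C`: finite index in `C` (`Subgroup.relIndex_inter_ne_zero` or similar).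
-/

set_option autoImplicit false

namespace P9700a

namespace LocCommAux

/-- a finite subset of the group whose images span the span of all images -/
theorem exists_finset {K V A : Type*} [Field K] [AddCommGroup V] [Module K V]
    [FiniteDimensional K V] [Group A] (ρ : A →* Module.End K V) :
    ∃ F : Finset A, ∀ a : A, ρ a ∈ Submodule.span K (ρ '' (F : Set A)) := by
  classical
  obtain ⟨b, hb1, hb2, hb3⟩ := exists_linearIndependent K (Set.range ρ)
  have hfin : b.Finite := hb3.setFinite
  choose! g hg using fun (φ : Module.End K V) (h : φ ∈ b) => hb1 h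
  refine ⟨hfin.toFinset.image g, fun a => ?_⟩
  have h1 : ρ a ∈ Submodule.span K b := by
    rw [hb2]
    exact Submodule.subset_span ⟨a, rfl⟩
  refine Submodule.span_mono ?_ h1
  intro φ hφ
  refine ⟨g φ, ?_, hg φ hφ⟩
  rw [Finset.coe_image]
  exact ⟨φ, by simpa using hφ, rfl⟩

end LocCommAux

theorem loc_comm {K V A : Type*} [Field K] [IsAlgClosed K] [CharZero K] [AddCommGroup V]
    [Module K V] [FiniteDimensional K V] [Nontrivial V] [Group A] (hA : FR A)
    (ρ : A →* Module.End K V) (hs : SIrr ρ) (C : Subgroup A) (hC : C.FG) :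
    ∃ D : Subgroup A, D ≤ C ∧ D.relIndex C ≠ 0 ∧
      ∀ x ∈ D, ∀ y ∈ D, ρ x * ρ y = ρ y * ρ x := by
  classical
  obtain ⟨F, hF⟩ := LocCommAux.exists_finset ρ
  set C' : Subgroup A := C ⊔ Subgroup.closure (F : Set A) with hC'
  have hfg : C'.FG := hC.sup ⟨F, rfl⟩
  have : Group.FG C' := (Group.fg_iff_subgroup_fg C').2 hfg
  -- irreducibility
  have hirr : ∀ X : Submodule K V, (∀ a : C', ∀ x ∈ X, (ρ.comp C'.subtype) a x ∈ X) →
      X = ⊥ ∨ X = ⊤ := by
    intro X hX
    refine hs ⊤ inferInstance X ?_
    intro h _ x hx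
    have h2 : Submodule.span K (ρ '' (F : Set A)) ≤
        ({ carrier := {φ : Module.End K V | ∀ x ∈ X, φ x ∈ X}
           add_mem' := fun {a b} ha hb x hx => by
             rw [LinearMap.add_apply]
             exact X.add_mem (ha x hx) (hb x hx)
           zero_mem' := fun x _ => by
             rw [LinearMap.zero_apply]
             exact X.zero_mem
           smul_mem' := fun c φ hφ x hx => by
             rw [LinearMap.smul_apply]
             exact X.smul_mem c (hφ x hx) } : Submodule K (Module.End K V)) := by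
      rw [Submodule.span_le]
      rintro _ ⟨a, ha, rfl⟩ y hy
      have haC : a ∈ C' := (le_sup_right : Subgroup.closure (F : Set A) ≤ C')
        (Subgroup.subset_closure ha)
      exact hX ⟨a, haC⟩ y hy
    exact h2 (hF h) x hx
  -- the matrix representation
  let e : Module.End K V ≃ₐ[K] Matrix (Fin (Module.finrank K V)) (Fin (Module.finrank K V)) K :=
    LinearMap.toMatrixAlgEquiv (Module.finBasis K V)
  let σ : C' →* Matrix.GeneralLinearGroup (Fin (Module.finrank K V)) K :=
    ((e : Module.End K V →* Matrix (Fin (Module.finrank K V)) (Fin (Module.finrank K V)) K).comp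
      (ρ.comp C'.subtype)).toHomUnits
  obtain ⟨A1, hA1n, hA1f, hA1⟩ := platonov_fg (FR.subgroup C' hA) σ
  have hnil : ∀ z ∈ ⁅A1, A1⁆, IsNilpotent ((ρ.comp C'.subtype) z - 1) := by
    intro z hz
    have h3 := (hA1 z hz).map (e.symm : _ →+* Module.End K V)
    have h4 : (e.symm : _ →+* Module.End K V)
        ((σ z : Matrix (Fin (Module.finrank K V)) (Fin (Module.finrank K V)) K) - 1) =
        (ρ.comp C'.subtype) z - 1 := by
      rw [map_sub, map_one]
      congr 1
      exact e.symm_apply_apply _
    rw [h4] at h3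
    exact h3
  have hone := kolchin (ρ.comp C'.subtype) hirr ⁅A1, A1⁆ hnil
  have hcomm : ∀ x ∈ A1, ∀ y ∈ A1, ρ (x : A) * ρ (y : A) = ρ (y : A) * ρ (x : A) := by
    intro x hx y hy
    have h4 : x * y * x⁻¹ * y⁻¹ ∈ ⁅A1, A1⁆ := Subgroup.commutator_mem_commutator hx hy
    have h5 : ρ ((x * y * x⁻¹ * y⁻¹ : C') : A) = 1 := hone _ h4
    have h6 : (x : A) * (y : A) =
        ((x * y * x⁻¹ * y⁻¹ : C') : A) * ((y : A) * (x : A)) := by
      push_cast
      group
    rw [← map_mul, h6, map_mul, h5, one_mul, map_mul]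
  refine ⟨A1.map C'.subtype ⊓ C, inf_le_right, ?_, ?_⟩
  · rw [Subgroup.inf_relIndex_right]
    have h7 : (A1.map C'.subtype).relIndex C' ≠ 0 := by
      have : (A1.map C'.subtype).relIndex C' = A1.index := by
        rw [Subgroup.relIndex, Subgroup.subgroupOf, Subgroup.comap_map_eq_self_of_injective
          (Subgroup.subtype_injective C')]
      rw [this]
      exact hA1f.index_ne_zero
    exact fun h => h7 (Subgroup.relIndex_eq_zero_of_le_right le_sup_left h)
  · rintro x ⟨⟨x', hx', rfl⟩, -⟩ y ⟨⟨y', hy', rfl⟩, -⟩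
    exact hcomm x' hx' y' hy'

end P9700a
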