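import Mathlib
import Pool.Agent.Lib.P9700a.Defs
import Pool.Agent.Lib.P9700b.VDefs
import Pool.Agent.Lib.P9700b.Clif

/-!
# Strongly irreducible, locally virtually commutative groups are locally virtually scalar

Proof. For a subgroup `D` let `E(D)` = the span of `ρ '' D` in `End K V` (closed under multiplication). For a f.g. subgroup `C` let `e(C)` be the minimum of `finrank (E D)` over the subgroups `D ≤ C` with `D.relIndex C ≠ 0`, and `D_C` one attaining it. If `D ≤ C`, `D.relIndex C ≠ 0`, then `E(D_C) ≤ E(D)`: `D ⊓ D_C` has finite index in `C`, `E(D ⊓ D_C) ≤ E(D_C)`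
with equality by minimality of the dimension, and `E(D ⊓ D_C) ≤ E(D)`. In particular `E(D_C)` does not depend on the choice of `D_C`, call it `E°(C)`. If `C ≤ C'` are f.g.: `D_{C'} ⊓ C` has finite index in `C`, so `E°(C) ≤ E(D_{C'} ⊓ C) ≤ E°(C')`. Choose a f.g. `C1` with `finrank E°(C1)` maximal; then `E°(C) = E°(C1) =: E` for all f.g. `C ≥ C1`.
`ρ(a) E ρ(a)⁻¹ = E` for `a ∈ A`: with `C = C1 ⊔ ⟨a⟩`, the subgroup `a D_C a⁻¹ ≤ C` has finite index in `C` (conjugation by `a` is an automorphism of `C`), so `E = E°(C) ≤ E(a D_C a⁻¹) = ρ(a) E ρ(a)⁻¹`; same for `a⁻¹`. By `hloc` some `D` of finite index in `C1` has commuting images, and `E ≤ E(D)`, so the elements of `E` commute with each other.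
`N = {x : ρ x ∈ E ∧ ρ x⁻¹ ∈ E}` is a normal subgroup of `A` with commuting images; `scalar_of_comm`: `N` acts by scalars. For a f.g. `C ≥ C1` the group `D = D_C` is contained in `N` (its elements and their inverses have images in `E(D_C) = E`).
-/

set_option autoImplicit false

namespace P9700a

namespace LocScalAux

variable {K V A : Type*} [Field K] [AddCommGroup V] [Module K V] [Group A]

/-- the span of the image of a subgroup -/
def E (ρ : A →* Module.End K V) (D : Subgroup A) : Submodule K (Module.End K V) :=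
  Submodule.span K (ρ '' D)

theorem E_mono (ρ : A →* Module.End K V) {D D' : Subgroup A} (h : D ≤ D') : E ρ D ≤ E ρ D' :=
  Submodule.span_mono (Set.image_mono h)

theorem mem_E (ρ : A →* Module.End K V) {D : Subgroup A} {x : A} (h : x ∈ D) : ρ x ∈ E ρ D :=
  Submodule.subset_span ⟨x, h, rfl⟩

theorem E_mul (ρ : A →* Module.End K V) {D : Subgroup A} {f g : Module.End K V}
    (hf : f ∈ E ρ D) (hg : g ∈ E ρ D) : f * g ∈ E ρ D := by
  have h1 : f * g ∈ E ρ D * E ρ D := Submodule.mul_mem_mul hf hg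
  unfold E at h1 ⊢
  rw [Submodule.span_mul_span] at h1
  refine Submodule.span_mono ?_ h1
  rintro _ ⟨_, ⟨x, hx, rfl⟩, _, ⟨y, hy, rfl⟩, rfl⟩
  exact ⟨x * y, D.mul_mem hx hy, map_mul ρ x y⟩

/-- `D` has minimal span among the subgroups of finite index of `C` -/
def Mini (ρ : A →* Module.End K V) (C D : Subgroup A) : Prop :=
  D ≤ C ∧ D.relIndex C ≠ 0 ∧ ∀ D' : Subgroup A, D' ≤ C → D'.relIndex C ≠ 0 →
    Module.finrank K (E ρ D) ≤ Module.finrank K (E ρ D')

theorem exists_mini (ρ : A →* Module.End K V) (C : Subgroup A) : ∃ D, Mini ρ C D := by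
  classical
  have hne : ∃ n : ℕ, ∃ D : Subgroup A, D ≤ C ∧ D.relIndex C ≠ 0 ∧
      Module.finrank K (E ρ D) = n :=
    ⟨_, C, le_rfl, by rw [Subgroup.relIndex_self]; exact one_ne_zero, rfl⟩
  obtain ⟨D, hD1, hD2, hD3⟩ := Nat.find_spec hne
  refine ⟨D, hD1, hD2, fun D' _ _ => ?_⟩
  rw [hD3]
  exact Nat.find_min' hne ⟨D', by assumption, by assumption, rfl⟩

theorem mini_le [FiniteDimensional K V] {ρ : A →* Module.End K V} {C D D' : Subgroup A}
    (h : Mini ρ C D) (h1 : D' ≤ C) (h2 : D'.relIndex C ≠ 0) : E ρ D ≤ E ρ D' := by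
  have h3 : (D ⊓ D').relIndex C ≠ 0 := Subgroup.relIndex_inf_ne_zero h.2.1 h2
  have h4 := h.2.2 (D ⊓ D') (inf_le_left.trans h.1) h3
  have h5 : E ρ (D ⊓ D') = E ρ D :=
    Submodule.eq_of_le_of_finrank_le (E_mono ρ inf_le_left) h4
  rw [← h5]
  exact E_mono ρ inf_le_right

theorem mini_mono [FiniteDimensional K V] {ρ : A →* Module.End K V} {C C' D D' : Subgroup A}
    (h : Mini ρ C D) (h' : Mini ρ C' D') (hC : C ≤ C') : E ρ D ≤ E ρ D' := by
  have h1 : (D' ⊓ C).relIndex C ≠ 0 := by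
    rw [Subgroup.inf_relIndex_right]
    exact fun h0 => h'.2.1 (Subgroup.relIndex_eq_zero_of_le_right hC h0)
  exact (mini_le h inf_le_right h1).trans (E_mono ρ inf_le_left)

theorem conj_mem [FiniteDimensional K V] {ρ : A →* Module.End K V} {C D : Subgroup A}
    (h : Mini ρ C D) {a : A} (ha : a ∈ C) {f : Module.End K V} (hf : f ∈ E ρ D) :
    ρ a * f * ρ a⁻¹ ∈ E ρ D := by
  have h1 : C.map (MulAut.conj a).toMonoidHom ≤ C := by
    rintro _ ⟨x, hx, rfl⟩
    exact C.mul_mem (C.mul_mem ha hx) (C.inv_mem ha)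
  have h2 : (D.comap (MulAut.conj a).toMonoidHom).relIndex C ≠ 0 := by
    rw [Subgroup.relIndex_comap]
    exact fun h0 => h.2.1 (Subgroup.relIndex_eq_zero_of_le_right h1 h0)
  have h3 : D.comap (MulAut.conj a).toMonoidHom ≤ C := by
    intro x hx
    have h4 : a * x * a⁻¹ ∈ C := h.1 hx
    have h5 : a⁻¹ * (a * x * a⁻¹) * a ∈ C := C.mul_mem (C.mul_mem (C.inv_mem ha) h4) ha
    have h6 : a⁻¹ * (a * x * a⁻¹) * a = x := by group
    rwa [h6] at h5
  have h4 := mini_le h h3 h2 hf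
  clear hf
  unfold E at h4
  induction h4 using Submodule.span_induction with
  | mem g hg =>
    obtain ⟨x, hx, rfl⟩ := hg
    rw [← map_mul, ← map_mul]
    exact mem_E ρ hx
  | zero =>
    rw [mul_zero, zero_mul]
    exact Submodule.zero_mem _
  | add g g' _ _ h5 h6 =>
    rw [mul_add, add_mul]
    exact Submodule.add_mem _ h5 h6
  | smul c g _ h5 =>
    rw [mul_smul_comm, smul_mul_assoc]
    exact Submodule.smul_mem _ c h5

theorem E_comm {ρ : A →* Module.End K V} {D : Subgroup A}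
    (hD : ∀ x ∈ D, ∀ y ∈ D, ρ x * ρ y = ρ y * ρ x) {f g : Module.End K V}
    (hf : f ∈ E ρ D) (hg : g ∈ E ρ D) : f * g = g * f := by
  unfold E at hf hg
  induction hf using Submodule.span_induction with
  | mem u hu =>
    obtain ⟨x, hx, rfl⟩ := hu
    induction hg using Submodule.span_induction with
    | mem w hw =>
      obtain ⟨y, hy, rfl⟩ := hw
      exact hD x hx y hy
    | zero => rw [mul_zero, zero_mul]
    | add w w' _ _ h1 h2 => rw [mul_add, add_mul, h1, h2]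
    | smul c w _ h1 => rw [mul_smul_comm, smul_mul_assoc, h1]
  | zero => rw [mul_zero, zero_mul]
  | add u u' _ _ h1 h2 => rw [mul_add, add_mul, h1, h2]
  | smul c u _ h1 => rw [mul_smul_comm, smul_mul_assoc, h1]

end LocScalAux

open LocScalAux

theorem loc_scalar {K V A : Type*} [Field K] [IsAlgClosed K] [AddCommGroup V]
    [Module K V] [FiniteDimensional K V] [Nontrivial V] [Group A]
    (ρ : A →* Module.End K V) (hs : SIrr ρ)
    (hloc : ∀ C : Subgroup A, C.FG → ∃ D : Subgroup A, D ≤ C ∧ D.relIndex C ≠ 0 ∧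
      ∀ x ∈ D, ∀ y ∈ D, ρ x * ρ y = ρ y * ρ x) :
    ∃ C1 : Subgroup A, C1.FG ∧ ∀ C : Subgroup A, C.FG → C1 ≤ C →
      ∃ D : Subgroup A, D ≤ C ∧ D.relIndex C ≠ 0 ∧
        ∀ x ∈ D, ∃ c : K, ρ x = c • (1 : Module.End K V) := by
  classical
  choose D hD using exists_mini ρ
  obtain ⟨C1, hC1, hmax⟩ : ∃ C1 : Subgroup A, C1.FG ∧ ∀ C : Subgroup A, C.FG →
      Module.finrank K (E ρ (D C)) ≤ Module.finrank K (E ρ (D C1)) := by
    have hbd : BddAbove {n : ℕ | ∃ C : Subgroup A, C.FG ∧ Module.finrank K (E ρ (D C)) = n} := by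
      refine ⟨Module.finrank K (Module.End K V), ?_⟩
      rintro _ ⟨C, _, rfl⟩
      exact Submodule.finrank_le _
    have hne : {n : ℕ | ∃ C : Subgroup A, C.FG ∧ Module.finrank K (E ρ (D C)) = n}.Nonempty :=
      ⟨_, ⊥, ⟨∅, by simp⟩, rfl⟩
    obtain ⟨C1, hC1, h1⟩ := Nat.sSup_mem hne hbd
    refine ⟨C1, hC1, fun C hC => ?_⟩
    rw [h1]
    exact le_csSup hbd ⟨C, hC, rfl⟩
  have hEq : ∀ C : Subgroup A, C.FG → C1 ≤ C → E ρ (D C) = E ρ (D C1) := by
    intro C hC hle
    exact (Submodule.eq_of_le_of_finrank_le (mini_mono (hD C1) (hD C) hle) (hmax C hC)).symm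
  have hconj : ∀ a : A, ∀ f ∈ E ρ (D C1), ρ a * f * ρ a⁻¹ ∈ E ρ (D C1) := by
    intro a f hf
    have hfg : (C1 ⊔ Subgroup.closure {a}).FG :=
      hC1.sup ⟨{a}, by simp⟩
    have h1 := hEq _ hfg le_sup_left
    have ha : a ∈ C1 ⊔ Subgroup.closure {a} :=
      (le_sup_right : _ ≤ C1 ⊔ Subgroup.closure {a}) (Subgroup.subset_closure rfl)
    rw [← h1] at hf ⊢
    exact conj_mem (hD _) ha hf
  let N : Subgroup A :=
    { carrier := {x | ρ x ∈ E ρ (D C1) ∧ ρ x⁻¹ ∈ E ρ (D C1)}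
      mul_mem' := by
        rintro x y ⟨hx, hx'⟩ ⟨hy, hy'⟩
        refine ⟨?_, ?_⟩
        · rw [map_mul]
          exact E_mul ρ hx hy
        · rw [mul_inv_rev, map_mul]
          exact E_mul ρ hy' hx'
      one_mem' := by
        refine ⟨mem_E ρ (D C1).one_mem, ?_⟩
        rw [inv_one]
        exact mem_E ρ (D C1).one_mem
      inv_mem' := by
        rintro x ⟨hx, hx'⟩
        refine ⟨hx', ?_⟩
        rw [inv_inv]
        exact hx }
  have hNn : N.Normal := by
    refine ⟨fun x hx a => ?_⟩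
    refine ⟨?_, ?_⟩
    · have h1 := hconj a _ hx.1
      rwa [← map_mul, ← map_mul] at h1
    · have h1 := hconj a _ hx.2
      rw [← map_mul, ← map_mul] at h1
      have h2 : (a * x * a⁻¹)⁻¹ = a * x⁻¹ * a⁻¹ := by group
      rw [h2]
      exact h1
  have hNc : ∀ x ∈ N, ∀ y ∈ N, ρ x * ρ y = ρ y * ρ x := by
    obtain ⟨D', h1, h2, h3⟩ := hloc C1 hC1
    intro x hx y hy
    exact E_comm h3 (mini_le (hD C1) h1 h2 hx.1) (mini_le (hD C1) h1 h2 hy.1)
  have hsc := scalar_of_comm ρ hs N hNc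
  refine ⟨C1, hC1, fun C hC hle => ⟨D C, (hD C).1, (hD C).2.1, fun x hx => ?_⟩⟩
  refine hsc x ⟨?_, ?_⟩
  · rw [← hEq C hC hle]
    exact mem_E ρ hx
  · rw [← hEq C hC hle]
    exact mem_E ρ ((D C).inv_mem hx)

end P9700a
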