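import Mathlib

/-!
# From finitely generated subgroups to the whole group: subgroups of bounded index

Proof. Let `I` be the type of f.g. subgroups `C` with `C1 ≤ C`, directed by `≤` (`C ⊔ C'` is f.g.); choose `D_C` for every `C ∈ I`. Let `𝒰` be an ultrafilter on `I` containing all the sets `{C : C' ≤ C}`, `C' ∈ I` (`Filter.atTop` is `NeBot`; `Ultrafilter.of Filter.atTop`). `A1 = {x : ∀ᶠ C in 𝒰, x ∈ D_C}` is a subgroup; for `x, y ∈ A1` there is a `C` with
`x, y ∈ D_C`, so `P x y`. Index: suppose `x_0, ..., x_J` lie in distinct left cosets of `A1`: `x_i⁻¹ x_j ∉ A1`, so `∀ᶠ C in 𝒰, x_i⁻¹ x_j ∉ D_C` (ultrafilter) for all `i ≠ j`, and `∀ᶠ C, x_i ∈ C`; so for some `C` the `J + 1` elements `x_i ∈ C` lie in distinct left cosets of `D_C`, contradicting `D_C.relIndex C ≤ J`, `≠ 0`. So `A1` has at most `J` left cosets.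
-/

set_option autoImplicit false

namespace P9700a

theorem ultra {A : Type*} [Group A] (J : ℕ) (P : A → A → Prop) (C1 : Subgroup A) (hC1 : C1.FG)
    (h : ∀ C : Subgroup A, C.FG → C1 ≤ C → ∃ D : Subgroup A, D ≤ C ∧ D.relIndex C ≠ 0 ∧
      D.relIndex C ≤ J ∧ ∀ x ∈ D, ∀ y ∈ D, P x y) :
    ∃ A1 : Subgroup A, A1.FiniteIndex ∧ ∀ x ∈ A1, ∀ y ∈ A1, P x y := by
  classical
  let I := {C : Subgroup A // C.FG ∧ C1 ≤ C}
  have hne : Nonempty I := ⟨⟨C1, hC1, le_rfl⟩⟩
  have hdir : IsDirected I (· ≤ ·) :=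
    ⟨fun a b => ⟨⟨a.1 ⊔ b.1, a.2.1.sup b.2.1, a.2.2.trans le_sup_left⟩,
      (le_sup_left : a.1 ≤ a.1 ⊔ b.1), (le_sup_right : b.1 ≤ a.1 ⊔ b.1)⟩⟩
  choose D hD1 hD2 hD3 hD4 using fun C : I => h C.1 C.2.1 C.2.2
  let U : Ultrafilter I := Ultrafilter.of Filter.atTop
  have hU : (U : Filter I) ≤ Filter.atTop := Ultrafilter.of_le _
  let A1 : Subgroup A :=
    { carrier := {x | ∀ᶠ C in (U : Filter I), x ∈ D C}
      mul_mem' := by
        intro a b ha hb
        filter_upwards [ha, hb] with C h1 h2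
        exact (D C).mul_mem h1 h2
      one_mem' := by
        filter_upwards with C
        exact (D C).one_mem
      inv_mem' := by
        intro a ha
        filter_upwards [ha] with C h1
        exact (D C).inv_mem h1 }
  refine ⟨A1, ?_, ?_⟩
  · rw [Subgroup.finiteIndex_iff_finite_quotient]
    by_contra hinf
    rw [not_finite_iff_infinite] at hinf
    obtain ⟨e⟩ : Nonempty (Fin (J + 1) ↪ A ⧸ A1) := ⟨(Fin.valEmbedding).trans (Infinite.natEmbedding _)⟩
    let x : Fin (J + 1) → A := fun i => (e i).out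
    have hx : ∀ i, ((x i : A) : A ⧸ A1) = e i := fun i => Quotient.out_eq' (e i)
    have h1 : ∀ᶠ C in (U : Filter I), ∀ i j : Fin (J + 1), i ≠ j → (x i)⁻¹ * x j ∉ D C := by
      rw [Filter.eventually_all]
      intro i
      rw [Filter.eventually_all]
      intro j
      by_cases hij : i = j
      · filter_upwards with C hc
        exact absurd hij hc
      · have h2 : (x i)⁻¹ * x j ∉ A1 := by
          intro h3
          apply hij
          apply e.injective
          rw [← hx i, ← hx j]
          exact QuotientGroup.eq.2 h3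
        have h3 : ∀ᶠ C in (U : Filter I), ¬ ((x i)⁻¹ * x j ∈ D C) := by
          rw [Ultrafilter.eventually_not]
          exact h2
        filter_upwards [h3] with C hc _
        exact hc
    have h2 : ∀ᶠ C in (U : Filter I), ∀ i : Fin (J + 1), x i ∈ C.1 := by
      rw [Filter.eventually_all]
      intro i
      apply hU
      have hfg : (Subgroup.closure {x i} ⊔ C1).FG :=
        Subgroup.FG.sup ⟨{x i}, by simp⟩ hC1
      filter_upwards [Filter.eventually_ge_atTop (⟨Subgroup.closure {x i} ⊔ C1, hfg, le_sup_right⟩ : I)]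
        with C hC
      have h3 : Subgroup.closure {x i} ⊔ C1 ≤ C.1 := hC
      exact h3 (Subgroup.mem_sup_left (Subgroup.subset_closure rfl))
    obtain ⟨C, hC1', hC2'⟩ := (h1.and h2).exists
    have hfin : Finite (C.1 ⧸ (D C).subgroupOf C.1) :=
      Subgroup.finiteIndex_iff_finite_quotient.1 ⟨hD2 C⟩
    have hinj : Function.Injective (fun i : Fin (J + 1) =>
        (((⟨x i, hC2' i⟩ : C.1)) : C.1 ⧸ (D C).subgroupOf C.1)) := by
      intro i j hij
      by_contra hne'
      apply hC1' i j hne'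
      have := QuotientGroup.eq.1 hij
      rw [Subgroup.mem_subgroupOf] at this
      exact this
    have h4 := Nat.card_le_card_of_injective _ hinj
    have h5 : Nat.card (C.1 ⧸ (D C).subgroupOf C.1) ≤ J := hD3 C
    rw [Nat.card_eq_fintype_card, Fintype.card_fin] at h4
    omega
  · intro x hx y hy
    obtain ⟨C, h1, h2⟩ := (Filter.Eventually.and hx hy).exists
    exact hD4 C x h1 y h2

end P9700a
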