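import Mathlib
import Pool.Agent.Lib.P9700a.Defs
import Pool.Agent.Lib.P9700a.Rank
import Pool.Agent.Lib.P9700a.Chain
import Pool.Agent.Lib.P9700b.VDefs
import Pool.Agent.Lib.P9700b.Clif
import Pool.Agent.Lib.P9700b.MalB
import Pool.Agent.Lib.P9700b.Malcev
import Pool.Agent.Lib.P9700c.LocComm
import Pool.Agent.Lib.P9700c.LocScal
import Pool.Agent.Lib.P9700c.JordP
import Pool.Agent.Lib.P9700c.Ultra

/-!
# Platonov's theorem: linear groups of finite special rank in characteristic zero are virtually triangularizable

Proof: strong induction on `finrank K V` for all groups `A` with `FR A`, exactly as in `exists_TF_of_solvable` (`P9700b/Malcev.lean`). `V` trivial: `TF` is `refl`. If some subgroup `A'` of finite index has an invariant subspace `V0 ≠ ⊥, ⊤`: the induction hypothesis for `A'` (`FR.subgroup`) acting on `V0` and on `V ⧸ V0`, intersect, `TF.mono`, `TF.ext`.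
Otherwise `SIrr ρ`, `V` nontrivial: `loc_comm` gives the hypothesis of `loc_scalar`, which gives `C1`. For f.g. `C ≥ C1`: `D ≤ C` of finite index acting by scalars; `jordan_proj` for the group `C`, `ρ.comp C.subtype`, `D.subgroupOf C` gives a subgroup of `C` of index `≤ J = 5^(2 n^2)` on which the images commute up to scalars. `ultra` with
`P x y := ∃ c, ρ x * ρ y = c • (ρ y * ρ x)` gives `A1` of finite index; its normal core `M` is normal of finite index; `scalar_of_comm_scalar` (`MalB`): `M` acts by scalars, so `TF (ρ '' M)` in one step `⊥ → ⊤`.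
-/

set_option autoImplicit false

namespace P9700a

namespace PlatAux

theorem scal {K V A : Type*} [Field K] [IsAlgClosed K] [CharZero K] [AddCommGroup V]
    [Module K V] [FiniteDimensional K V] [Nontrivial V] [Group A] (hA : FR A)
    (ρ : A →* Module.End K V) (hs : SIrr ρ) :
    ∃ M : Subgroup A, M.FiniteIndex ∧ ∀ x ∈ M, ∃ c : K, ρ x = c • (1 : Module.End K V) := by
  obtain ⟨C1, hC1, h1⟩ := loc_scalar ρ hs (fun C hC => loc_comm hA ρ hs C hC)
  obtain ⟨A1, hA1, h2⟩ := ultra (5 ^ (2 * (Module.finrank K V) ^ 2))
    (fun x y => ∃ c : K, ρ x * ρ y = c • (ρ y * ρ x)) C1 hC1 (by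
      intro C hC hCC
      obtain ⟨D, hD, hD0, hsc⟩ := h1 C hC hCC
      obtain ⟨C2, h3, h4, h5⟩ := jordan_proj (ρ.comp C.subtype) (D.subgroupOf C) ⟨hD0⟩ (by
        intro x hx
        exact hsc _ hx)
      have e2 : (C2.map C.subtype).subgroupOf C = C2 :=
        Subgroup.comap_map_eq_self_of_injective C.subtype_injective _
      have e3 : (C2.map C.subtype).relIndex C = C2.index := by
        show ((C2.map C.subtype).subgroupOf C).index = _
        rw [e2]
      refine ⟨C2.map C.subtype, ?_, ?_, ?_, ?_⟩
      · rintro _ ⟨z, hz, rfl⟩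
        exact z.2
      · rw [e3]; exact h3
      · rw [e3]; exact h4
      · rintro _ ⟨x, hx, rfl⟩ _ ⟨y, hy, rfl⟩
        exact h5 x hx y hy)
  have hM : A1.normalCore.FiniteIndex := inferInstance
  refine ⟨A1.normalCore, hM, ?_⟩
  refine scalar_of_comm_scalar ρ hs A1.normalCore ?_
  intro x hx y hy
  exact h2 x (A1.normalCore_le hx) y (A1.normalCore_le hy)

theorem aux {K : Type*} [Field K] [IsAlgClosed K] [CharZero K] (n : ℕ) :
    ∀ (V : Type*) [AddCommGroup V] [Module K V] [FiniteDimensional K V] (H : Type*) [Group H]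
      (_ : FR H) (ρ : H →* Module.End K V), Module.finrank K V ≤ n →
      ∃ H1 : Subgroup H, H1.FiniteIndex ∧ TF (ρ '' (H1 : Set H)) := by
  induction n with
  | zero =>
    intro V _ _ _ H _ _ ρ hn
    have h0 : Module.finrank K V = 0 := by omega
    have hsub : Subsingleton V := Module.finrank_zero_iff.1 h0
    refine ⟨⊤, inferInstance, ?_⟩
    have h1 : (⊥ : Submodule K V) = ⊤ := Subsingleton.elim _ _
    show Relation.ReflTransGen _ _ _
    rw [h1]
  | succ n ih =>
    intro V _ _ _ H _ hFR ρ hn
    by_cases hV : Subsingleton V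
    · refine ⟨⊤, inferInstance, ?_⟩
      have h1 : (⊥ : Submodule K V) = ⊤ := Subsingleton.elim _ _
      show Relation.ReflTransGen _ _ _
      rw [h1]
    have hVn : Nontrivial V := not_subsingleton_iff_nontrivial.1 hV
    by_cases hs : SIrr ρ
    · obtain ⟨M, hM, hsc⟩ := scal hFR ρ hs
      refine ⟨M, hM, ?_⟩
      refine Relation.ReflTransGen.single ⟨bot_le, ?_⟩
      rintro _ ⟨x, hx, rfl⟩
      obtain ⟨c, hc⟩ := hsc x hx
      refine ⟨c, fun w _ => ?_⟩
      rw [hc, Submodule.mem_bot]
      show c • w - c • w = 0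
      exact sub_self _
    · unfold SIrr at hs
      push Not at hs
      obtain ⟨H', hH', X, hX, hX0, hX1⟩ := hs
      have hmap : ∀ h : H', ∀ x ∈ X, ρ (h : H) x ∈ X := fun h x hx => hX h h.2 x hx
      let σ0 : H' →* Module.End K X :=
        { toFun := fun h => (ρ (h : H)).restrict (hmap h)
          map_one' := by
            ext w
            show ρ ((1 : H') : H) (w : V) = (w : V)
            rw [Subgroup.coe_one, map_one]
            rfl
          map_mul' := by
            intro a b
            ext w
            show ρ ((a * b : H') : H) (w : V) = ρ (a : H) (ρ (b : H) (w : V))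
            rw [Subgroup.coe_mul, map_mul]
            rfl }
      let σ1 : H' →* Module.End K (V ⧸ X) :=
        { toFun := fun h => X.mapQ X (ρ (h : H)) (fun x hx => hmap h x hx)
          map_one' := by
            apply Submodule.linearMap_qext
            refine LinearMap.ext fun w => ?_
            show X.mkQ (ρ ((1 : H') : H) w) = X.mkQ w
            rw [Subgroup.coe_one, map_one]
            rfl
          map_mul' := by
            intro a b
            apply Submodule.linearMap_qext
            refine LinearMap.ext fun w => ?_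
            show X.mkQ (ρ ((a * b : H') : H) w) = X.mkQ (ρ (a : H) (ρ (b : H) w))
            rw [Subgroup.coe_mul, map_mul]
            rfl }
      have hf1 : Module.finrank K X < Module.finrank K V :=
        Submodule.finrank_lt hX1
      have hXn : Nontrivial X := Submodule.nontrivial_iff_ne_bot.2 hX0
      have hf2 : Module.finrank K (V ⧸ X) < Module.finrank K V := by
        have h1 := Submodule.finrank_quotient_add_finrank X
        have h2 : 0 < Module.finrank K X := Module.finrank_pos
        omega
      have hFR' : FR H' := FR.subgroup H' hFR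
      obtain ⟨H1, hH1, hT1⟩ := ih X H' hFR' σ0 (by omega)
      obtain ⟨H2, hH2, hT2⟩ := ih (V ⧸ X) H' hFR' σ1 (by omega)
      refine ⟨(H1 ⊓ H2).map H'.subtype, ?_, ?_⟩
      · have h12 : (H1 ⊓ H2).FiniteIndex := inferInstance
        refine ⟨?_⟩
        rw [Subgroup.index_map_subtype]
        exact mul_ne_zero h12.index_ne_zero hH'.index_ne_zero
      · refine TF.ext X hT1 hT2 ?_
        rintro _ ⟨_, ⟨h, hh, rfl⟩, rfl⟩
        refine ⟨⟨σ0 h, ⟨h, hh.1, rfl⟩, fun w => rfl⟩, ⟨σ1 h, ⟨h, hh.2, rfl⟩, fun w => ?_⟩⟩
        rfl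

end PlatAux

theorem platonov {K V A : Type*} [Field K] [IsAlgClosed K] [CharZero K] [AddCommGroup V]
    [Module K V] [FiniteDimensional K V] [Group A] (hA : FR A) (ρ : A →* Module.End K V) :
    ∃ A1 : Subgroup A, A1.FiniteIndex ∧ TF (ρ '' (A1 : Set A)) :=
  PlatAux.aux (Module.finrank K V) V A hA ρ le_rfl

end P9700a
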