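import Mathlib
import Pool.Agent.Lib.P9700b.MainV
import Pool.Agent.Lib.P9700c.Plat

/-!
# Products of two subgroups of finite special rank in linear groups of characteristic zero
-/

set_option autoImplicit false

universe u v w

namespace P9700a

theorem main_plat (K : Type w) [Field K] [IsAlgClosed K] [CharZero K] (G : Type u) [Group G]
    (V : Type v) [AddCommGroup V] [Module K V] [FiniteDimensional K V]
    (ρ : G →* Module.End K V) (hρ : Function.Injective ρ)
    (A B : Subgroup G) (hA : FR A) (hB : FR B) (hAB : ∀ g : G, ∃ a ∈ A, ∃ b ∈ B, g = a * b) :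
    FR G ∧ VS G := by
  have key : ∀ C : Subgroup G, FR C → ∃ C0 : Subgroup G, C0 ≤ C ∧ C0.relIndex C ≠ 0 ∧
      TF (ρ '' (C0 : Set G)) := by
    intro C hC
    obtain ⟨Z, hZ, hT⟩ := platonov hC (ρ.comp C.subtype)
    refine ⟨Z.map C.subtype, ?_, ?_, ?_⟩
    · rintro _ ⟨z, hz, rfl⟩
      exact z.2
    · have e2 : (Z.map C.subtype).subgroupOf C = Z :=
        Subgroup.comap_map_eq_self_of_injective C.subtype_injective _
      show ((Z.map C.subtype).subgroupOf C).index ≠ 0
      rw [e2]; exact hZ.index_ne_zero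
    · have e3 : ρ '' ((Z.map C.subtype : Subgroup G) : Set G) =
          (ρ.comp C.subtype) '' (Z : Set C) := by
        rw [Subgroup.coe_map, ← Set.image_comp]
        rfl
      rw [e3]; exact hT
  obtain ⟨A0, hA0, hfA, hTA⟩ := key A hA
  obtain ⟨B0, hB0, hfB, hTB⟩ := key B hB
  exact main_ind_v K _ G V ρ le_rfl hρ A B A0 B0 hA hB hAB hA0 hB0 hfA hfB hTA hTB

end P9700a
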